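import Pool.Agent.Q79.HW.Loc

set_option autoImplicit false

open MeasureTheory Filter Topology Set
open scoped ENNReal NNReal Real

namespace Pool.Agent.Q79.HW

/-- the dual weight of `u d^{-p}` -/
lemma sg_mul {p : ℝ} (hp : 1 < p) {u d : ℝ → ℝ≥0∞} {x : ℝ} (hu : u x ≠ 0) (hd0 : d x ≠ 0)
    (hdt : d x ≠ ∞) :
    sg p (fun x => u x * d x ^ (-p)) x = sg p u x * d x ^ (p / (p - 1)) := by
  have hp1 : p - 1 ≠ 0 := by
    have : 0 < p - 1 := by linarith
    exact this.ne'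
  unfold sg
  have h1 : d x ^ (-p) ≠ 0 := by
    rw [Ne, ENNReal.rpow_eq_zero_iff]
    rintro (h | h)
    · exact hd0 h.1
    · exact hdt h.1
  show (u x * d x ^ (-p)) ^ (-(1 / (p - 1))) = _
  rw [ENNReal.mul_rpow_of_ne_zero hu h1, ← ENNReal.rpow_mul]
  congr 2
  field_simp

lemma ms_sg_mul {p : ℝ} (hp : 1 < p) {u d : ℝ → ℝ≥0∞} (hu : ∀ᵐ x, u x ≠ 0)
    (hd0 : ∀ᵐ x, d x ≠ 0) (hdt : ∀ x, d x ≠ ∞) (E : Set ℝ) :
    ms (sg p (fun x => u x * d x ^ (-p))) E = ∫⁻ x in E, sg p u x * d x ^ (p / (p - 1)) := by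
  unfold ms
  apply lintegral_congr_ae
  apply ae_restrict_of_ae
  filter_upwards [hu, hd0] with x h1 h2
  exact sg_mul hp h1 h2 (hdt x)

theorem c2 (hWT : S_WT) (hPA : S_PAIR) (hPO : S_POS) : S_C2 := by
  intro p u C h c hc
  have hp := h.hp
  have hp0 : 0 ≤ p := by linarith
  have hu0 := hPO p u C h
  set d : ℝ → ℝ≥0∞ := fun x => ENNReal.ofReal |x - c| with hd
  have hdm : Measurable d := by
    have : Measurable (fun x : ℝ => |x - c|) := by fun_prop
    exact this.ennreal_ofReal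
  have hd0 : ∀ᵐ x, d x ≠ 0 := by
    have : ∀ᵐ x : ℝ, x ≠ c := by
      rw [ae_iff]; simp
    filter_upwards [this] with x hx
    simp only [hd, Ne, ENNReal.ofReal_eq_zero, not_le]
    exact abs_pos.2 (sub_ne_zero.2 hx)
  have hdt : ∀ x, d x ≠ ∞ := fun x => ENNReal.ofReal_ne_top
  set w : ℝ → ℝ≥0∞ := fun x => u x * d x ^ (-p) with hw
  have hwm : Measurable w := h.meas.mul (hdm.pow_const _)
  have hw0 : ∀ᵐ x, w x ≠ 0 := by
    filter_upwards [hu0] with x h1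
    simp only [hw]
    apply mul_ne_zero h1
    rw [Ne, ENNReal.rpow_eq_zero_iff]
    rintro (h | h)
    · linarith [h.2]
    · exact hdt x h.1
  have hwt : ∀ᵐ x, w x ≠ ∞ := by
    filter_upwards [hd0] with x h1
    simp only [hw]
    apply ENNReal.mul_ne_top (h.fin x)
    rw [Ne, ENNReal.rpow_eq_top_iff]
    rintro (h | h)
    · exact h1 h.1
    · exact hdt x h.1
  have key : ∀ (I J : Set ℝ), MeasurableSet I → IsOpen J → ∀ a h' : ℝ, 0 < h' →
      I ⊆ Ioo a (a + 2 * h') → J ⊆ Ioo a (a + 2 * h') →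
      ((∀ x ∈ J, ∀ y ∈ I, 0 < x - y) ∨ (∀ x ∈ J, ∀ y ∈ I, 0 < y - x)) →
      ms w J * ms (sg p w) I ^ (p - 1) ≤ ((C * 4 ^ p : ℝ≥0) : ℝ≥0∞) * ENNReal.ofReal h' ^ p := by
    intro I J hI hJ a h' hh hIs hJs hIJ
    have h1 := hWT p u C h c hc I J hI hJ (2 * h') (by linarith) (by
      rcases hIJ with hl | hl
      · left
        intro x hx y hy
        have hx' := hJs hx
        have hy' := hIs hy
        exact ⟨hl x hx y hy, by linarith [hx'.2, hy'.1]⟩
      · right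
        intro x hx y hy
        have hx' := hJs hx
        have hy' := hIs hy
        exact ⟨hl x hx y hy, by linarith [hx'.1, hy'.2]⟩)
    have e1 : ENNReal.ofReal (2 * (2 * h')) ^ p = 4 ^ p * ENNReal.ofReal h' ^ p := by
      rw [← ENNReal.mul_rpow_of_nonneg _ _ hp0]
      congr 1
      have : (2 * (2 * h')) = 4 * h' := by ring
      rw [this, ENNReal.ofReal_mul (by norm_num)]
      norm_num
    have e2 : ((C * 4 ^ p : ℝ≥0) : ℝ≥0∞) = C * 4 ^ p := by
      push_cast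
      rw [ENNReal.coe_rpow_of_nonneg _ hp0]
      norm_num
    have e3 : ms (sg p w) I = ∫⁻ y in I, sg p u y * ENNReal.ofReal |y - c| ^ (p / (p - 1)) :=
      ms_sg_mul hp hu0 hd0 hdt I
    rw [e2]
    rw [← e3] at h1
    calc ms w J * ms (sg p w) I ^ (p - 1)
        ≤ (C * ENNReal.ofReal (2 * (2 * h')) ^ p * ms (sg p w) I ^ (1 - p)) *
            ms (sg p w) I ^ (p - 1) := mul_le_mul' h1 le_rfl
      _ = (C * 4 ^ p * ENNReal.ofReal h' ^ p) *
            (ms (sg p w) I ^ (1 - p) * ms (sg p w) I ^ (p - 1)) := by rw [e1]; ring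
      _ ≤ (C * 4 ^ p * ENNReal.ofReal h' ^ p) * 1 := mul_le_mul' le_rfl (rp_mul_le _ hp)
      _ = _ := by rw [mul_one]
  refine ⟨(C * 4 ^ p) ^ 2, ?_⟩
  intro a b hab
  have hh : 0 < b - a := by linarith
  have sub1 : Ioo a (a + (b - a)) ⊆ Ioo a (a + 2 * (b - a)) := Ioo_subset_Ioo le_rfl (by linarith)
  have sub2 : Ioo (a + (b - a)) (a + 2 * (b - a)) ⊆ Ioo a (a + 2 * (b - a)) :=
    Ioo_subset_Ioo (by linarith) le_rfl
  have h1 := key _ _ measurableSet_Ioo isOpen_Ioo a (b - a) hh sub1 sub2 (Or.inl (by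
    intro x hx y hy
    linarith [hx.1, hy.2]))
  have h2 := key _ _ measurableSet_Ioo isOpen_Ioo a (b - a) hh sub2 sub1 (Or.inr (by
    intro x hx y hy
    linarith [hx.2, hy.1]))
  have h3 := hPA p hp w hwm hw0 hwt _ a (b - a) hh h1 h2
  have e : a + (b - a) = b := by ring
  rw [e] at h3
  rw [ENNReal.coe_pow]
  exact h3

end Pool.Agent.Q79.HW
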