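import Pool.Agent.Q79.HW.Cen

set_option autoImplicit false

open MeasureTheory Filter Topology Set
open scoped ENNReal NNReal Real

namespace Pool.Agent.Q79.HW

/-- comparison of `w = u d^{-p}` with `u` on a set where `d` is almost constant -/
lemma comp {p : ℝ} (hp : 1 < p) {u d : ℝ → ℝ≥0∞} (hu : Measurable u)
    (hu0 : ∀ᵐ x, u x ≠ 0)
    (hd0 : ∀ᵐ x, d x ≠ 0) (hdt : ∀ x, d x ≠ ∞) {E : Set ℝ} (hE : MeasurableSet E) {m : ℝ}
    (hm : 0 < m) (h1 : ∀ x ∈ E, ENNReal.ofReal m ≤ d x) (h2 : ∀ x ∈ E, d x ≤ ENNReal.ofReal (2 * m)) :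
    ms (fun x => u x * d x ^ (-p)) E * ms (sg p (fun x => u x * d x ^ (-p))) E ^ (p - 1) ≤
      2 ^ p * (ms u E * ms (sg p u) E ^ (p - 1)) := by
  have hp0 : 0 < p := by linarith
  have hp1 : 0 < p - 1 := by linarith
  have hq : 0 ≤ p / (p - 1) := by positivity
  have e1 : ms (fun x => u x * d x ^ (-p)) E ≤ ENNReal.ofReal m ^ (-p) * ms u E := by
    unfold ms
    rw [← lintegral_const_mul _ hu]
    apply setLIntegral_mono' hE
    intro x hx
    rw [mul_comm]
    exact mul_le_mul' (rp_anti (by linarith) (h1 x hx)) le_rfl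
  have e2 : ms (sg p (fun x => u x * d x ^ (-p))) E ≤
      ENNReal.ofReal (2 * m) ^ (p / (p - 1)) * ms (sg p u) E := by
    rw [ms_sg_mul hp hu0 hd0 hdt]
    unfold ms
    rw [← lintegral_const_mul _ (sg_meas hu)]
    apply setLIntegral_mono' hE
    intro x hx
    rw [mul_comm]
    exact mul_le_mul' (ENNReal.rpow_le_rpow (h2 x hx) hq) le_rfl
  have hm0 : ENNReal.ofReal m ≠ 0 := by
    rw [Ne, ENNReal.ofReal_eq_zero, not_le]; exact hm
  have e3 : ENNReal.ofReal m ^ (-p) * (ENNReal.ofReal (2 * m) ^ (p / (p - 1))) ^ (p - 1) = 2 ^ p := by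
    rw [← ENNReal.rpow_mul, div_mul_cancel₀ _ hp1.ne', ENNReal.ofReal_mul (by norm_num),
      ENNReal.mul_rpow_of_nonneg _ _ hp0.le]
    have : ENNReal.ofReal m ^ (-p) * ENNReal.ofReal m ^ p = 1 := by
      rw [← ENNReal.rpow_add _ _ hm0 ENNReal.ofReal_ne_top]
      simp
    calc ENNReal.ofReal m ^ (-p) * (ENNReal.ofReal 2 ^ p * ENNReal.ofReal m ^ p)
        = (ENNReal.ofReal m ^ (-p) * ENNReal.ofReal m ^ p) * ENNReal.ofReal 2 ^ p := by ring
      _ = 2 ^ p := by rw [this, one_mul]; norm_num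
  calc _ ≤ (ENNReal.ofReal m ^ (-p) * ms u E) *
        (ENNReal.ofReal (2 * m) ^ (p / (p - 1)) * ms (sg p u) E) ^ (p - 1) :=
        mul_le_mul' e1 (ENNReal.rpow_le_rpow e2 hp1.le)
    _ = (ENNReal.ofReal m ^ (-p) * (ENNReal.ofReal (2 * m) ^ (p / (p - 1))) ^ (p - 1)) *
        (ms u E * ms (sg p u) E ^ (p - 1)) := by
        rw [ENNReal.mul_rpow_of_nonneg _ _ hp1.le]; ring
    _ = _ := by rw [e3]

theorem c3 (hLOC : S_LOC) (hCEN : S_CEN) (hPO : S_POS) : S_C3 := by
  intro p u C h hS
  have hp := h.hp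
  have hp0 : 0 < p := by linarith
  have hp1 : 0 < p - 1 := by linarith
  have hu0 := hPO p u C h
  have hσm : Measurable (sg p u) := sg_meas h.meas
  set S := ms (sg p u) univ with hSdef
  have hSe : S = ∫⁻ x, sg p u x := setLIntegral_univ _
  have hSpos : S ≠ 0 := by
    intro h0
    have : ∀ᵐ x, sg p u x = 0 := by
      rw [hSe] at h0
      exact (lintegral_eq_zero_iff hσm).1 h0
    have h2 : ∀ᵐ x : ℝ, False := by
      filter_upwards [this] with x hx
      exact sg_pos' hp (h.fin x) hx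
    rw [ae_iff] at h2
    simp at h2
  -- a core interval
  obtain ⟨R₀, hR₀, hK⟩ : ∃ R₀ : ℝ, 1 ≤ R₀ ∧ S ≤ 2 * ms (sg p u) (Icc (-R₀) R₀) := by
    have hmono : Monotone (fun n : ℕ => Icc (-(n:ℝ)) (n:ℝ)) := by
      intro n m hnm
      have : (n:ℝ) ≤ m := by exact_mod_cast hnm
      exact Icc_subset_Icc (by linarith) this
    have hU : ⋃ n : ℕ, Icc (-(n:ℝ)) (n:ℝ) = univ := by
      apply Set.eq_univ_of_forall
      intro x
      obtain ⟨n, hn⟩ := exists_nat_ge |x|
      exact Set.mem_iUnion.2 ⟨n, abs_le.1 hn⟩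
    have hlim : ⨆ n : ℕ, ms (sg p u) (Icc (-(n:ℝ)) (n:ℝ)) = S := by
      rw [hSdef, ← hU]
      unfold ms
      rw [setLIntegral_iUnion_of_directed _ hmono.directed_le]
    have hlt : S / 2 < S := ENNReal.half_lt_self hSpos hS
    have hlt' : S / 2 < ⨆ n : ℕ, ms (sg p u) (Icc (-(n:ℝ)) (n:ℝ)) := by rw [hlim]; exact hlt
    obtain ⟨n, hn⟩ := lt_iSup_iff.1 hlt'
    refine ⟨max 1 (n:ℝ), le_max_left _ _, ?_⟩
    have h1 : ms (sg p u) (Icc (-(n:ℝ)) (n:ℝ)) ≤ ms (sg p u) (Icc (-(max 1 (n:ℝ))) (max 1 (n:ℝ))) := by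
      apply ms_mono
      exact Icc_subset_Icc (by linarith [le_max_right (1:ℝ) (n:ℝ)]) (le_max_right _ _)
    calc S = 2 * (S / 2) := (ENNReal.mul_div_cancel (by norm_num) (by norm_num)).symm
      _ ≤ 2 * ms (sg p u) (Icc (-(max 1 (n:ℝ))) (max 1 (n:ℝ))) :=
          mul_le_mul' le_rfl (hn.le.trans h1)
  -- uniform absolute continuity
  obtain ⟨δ, hδ0, hδ⟩ := exists_pos_setLIntegral_lt_of_measure_lt (f := sg p u)
    (by rw [← hSe]; exact hS) (ε := S / 2) (by
      simp only [Ne, ENNReal.div_eq_zero_iff, not_or]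
      exact ⟨hSpos, by norm_num⟩)
  obtain ⟨δ', hδ'0, hδ'⟩ : ∃ δ' : ℝ, 0 < δ' ∧ ENNReal.ofReal δ' < δ := by
    obtain ⟨r, hr0, hr1⟩ := ENNReal.lt_iff_exists_nnreal_btwn.1 hδ0
    refine ⟨r, ?_, ?_⟩
    · exact_mod_cast hr0
    · rw [ENNReal.ofReal_coe_nnreal]; exact hr1
  obtain ⟨A, hA⟩ := hLOC p u C h
  obtain ⟨B, R₁, hB⟩ := hCEN p u C h R₀ hR₀ hS hK
  set d : ℝ → ℝ≥0∞ := fun x => ENNReal.ofReal (1 + |x|) with hd
  have hd1 : ∀ x : ℝ, 0 < 1 + |x| := fun x => by positivity
  have hd0 : ∀ x, d x ≠ 0 := fun x => by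
    simp only [hd, Ne, ENNReal.ofReal_eq_zero, not_le]; exact hd1 x
  have hdt : ∀ x, d x ≠ ∞ := fun x => ENNReal.ofReal_ne_top
  have hdm : Measurable d := by
    have : Measurable (fun x : ℝ => 1 + |x|) := by fun_prop
    exact this.ennreal_ofReal
  set h₀ : ℝ := min (1 / 4) (δ' / 10) with hh₀
  have hh₀0 : 0 < h₀ := lt_min (by norm_num) (by positivity)
  have hh₀1 : h₀ ≤ 1 / 4 := min_le_left _ _
  have hh₀2 : h₀ ≤ δ' / 10 := min_le_right _ _
  set L : ℝ := (max R₁ 0 + R₀) / h₀ + 7 with hL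
  have hL0 : 0 < L := by
    have : 0 ≤ max R₁ 0 := le_max_right _ _
    positivity
  -- the almost constant case
  have hcomp : ∀ a b : ℝ, a < b → (b - a ≤ 1 / 4 ∨ 6 * (b - a) ≤ |a|) →
      ms u (Ioo a b) * ms (sg p u) (Ioo a b) ^ (p - 1) ≤ A * ENNReal.ofReal (b - a) ^ p →
      ms (fun x => u x * d x ^ (-p)) (Ioo a b) *
        ms (sg p (fun x => u x * d x ^ (-p))) (Ioo a b) ^ (p - 1) ≤
        2 ^ p * A * ENNReal.ofReal (b - a) ^ p := by
    intro a b hab hsm hbd
    have hm : 0 < 1 + |a| - (b - a) := by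
      rcases hsm with hs | hs
      · have := abs_nonneg a
        linarith
      · linarith
    have habs : ∀ x ∈ Ioo a b, |a| - (b - a) ≤ |x| ∧ |x| ≤ |a| + (b - a) := by
      intro x hx
      have h1 : |x - a| ≤ b - a := by
        rw [abs_le]; constructor <;> linarith [hx.1, hx.2]
      constructor
      · have := abs_sub_abs_le_abs_sub a x
        rw [abs_sub_comm] at this
        linarith
      · have := abs_sub_abs_le_abs_sub x a
        linarith
    have h1 := comp hp h.meas hu0 (Eventually.of_forall hd0) hdt (E := Ioo a b)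
      measurableSet_Ioo hm (by
        intro x hx
        apply ENNReal.ofReal_le_ofReal
        linarith [(habs x hx).1]) (by
        intro x hx
        apply ENNReal.ofReal_le_ofReal
        rcases hsm with hs | hs
        · linarith [(habs x hx).2, abs_nonneg a]
        · linarith [(habs x hx).2])
    refine h1.trans ?_
    rw [mul_assoc]
    exact mul_le_mul' le_rfl hbd
  refine ⟨2 ^ p * A + B * (L ^ p).toNNReal, ?_⟩
  have hCe : ((2 ^ p * A + B * (L ^ p).toNNReal : ℝ≥0) : ℝ≥0∞) =
      2 ^ p * A + B * ENNReal.ofReal L ^ p := by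
    push_cast
    rw [ENNReal.coe_rpow_of_nonneg _ hp0.le, ENNReal.ofReal_rpow_of_pos hL0]
    rfl
  intro a b hab
  rw [hCe, add_mul]
  have hh : 0 < b - a := by linarith
  have e : a + (b - a) = b := by ring
  by_cases hs : b - a ≤ h₀
  · -- short intervals
    refine le_trans ?_ le_self_add
    apply hcomp a b hab (Or.inl (hs.trans hh₀1))
    have h1 := hA a (b - a) hh (Icc (a - 4 * (b - a)) (a + 6 * (b - a)))ᶜ
      measurableSet_Icc.compl (by
        intro x hx z hz
        have hz' : z < a - 4 * (b - a) ∨ a + 6 * (b - a) < z := by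
          by_contra hc
          push Not at hc
          exact hz ⟨hc.1, hc.2⟩
        rcases hz' with hz' | hz'
        · rw [abs_of_nonneg (by linarith [hx.1])]
          linarith [hx.1]
        · rw [abs_of_nonpos (by linarith [hx.2])]
          linarith [hx.2]) (by
        set Q := Icc (a - 4 * (b - a)) (a + 6 * (b - a)) with hQ
        have hv : volume Q < δ := by
          rw [hQ, Real.volume_Icc]
          refine lt_of_le_of_lt (ENNReal.ofReal_le_ofReal ?_) hδ'
          linarith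
        have h2 : ms (sg p u) Q < S / 2 := hδ Q hv
        have h3 : S = ms (sg p u) Q + ms (sg p u) Qᶜ := by
          rw [hSe]
          exact (lintegral_add_compl _ measurableSet_Icc).symm
        have h4 : S / 2 ≤ ms (sg p u) Qᶜ := by
          by_contra hc
          push Not at hc
          have : S < S / 2 + S / 2 := by
            calc S = ms (sg p u) Q + ms (sg p u) Qᶜ := h3
              _ < S / 2 + S / 2 := ENNReal.add_lt_add h2 hc
          rw [ENNReal.add_halves] at this
          exact lt_irrefl _ this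
        calc ms (sg p u) (Ioo a (a + 2 * (b - a))) ≤ S := ms_mono _ (subset_univ _)
          _ = 2 * (S / 2) := (ENNReal.mul_div_cancel (by norm_num) (by norm_num)).symm
          _ ≤ _ := mul_le_mul' le_rfl h4)
    rw [e] at h1
    exact h1
  · push Not at hs
    by_cases hw : 6 * (b - a) + R₀ ≤ |a|
    · -- intervals far from the origin
      refine le_trans ?_ le_self_add
      apply hcomp a b hab (Or.inr (by linarith))
      have h1 := hA a (b - a) hh (Icc (-R₀) R₀) measurableSet_Icc (by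
          intro x hx z hz
          have hz' : |z| ≤ R₀ := abs_le.2 hz
          have h2 : |x - a| ≤ 2 * (b - a) := by
            rw [abs_le]; constructor <;> linarith [hx.1, hx.2]
          have h3 := abs_sub_abs_le_abs_sub a x
          rw [abs_sub_comm] at h3
          have h4 := abs_sub_abs_le_abs_sub x z
          linarith) (by
          exact (ms_mono _ (subset_univ _)).trans hK)
      rw [e] at h1
      exact h1
    · -- large intervals near the origin
      push Not at hw
      refine le_trans ?_ le_add_self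
      set R : ℝ := max R₁ 0 + R₀ + 7 * (b - a) with hR
      have hR1 : R₁ ≤ R := by
        have := le_max_left R₁ 0
        linarith
      have hRL : R ≤ L * (b - a) := by
        have h2 : max R₁ 0 + R₀ ≤ (max R₁ 0 + R₀) / h₀ * (b - a) := by
          have h3 : 0 ≤ (max R₁ 0 + R₀) / h₀ := by
            have : 0 ≤ max R₁ 0 := le_max_right _ _
            positivity
          calc max R₁ 0 + R₀ = (max R₁ 0 + R₀) / h₀ * h₀ := by field_simp
            _ ≤ _ := mul_le_mul_of_nonneg_left hs.le h3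
        rw [hR, hL]
        linarith
      have hR0 : 0 < R := by
        have : 0 ≤ max R₁ 0 := le_max_right _ _
        linarith
      have hsub : Ioo a b ⊆ Ioo (-R) R := by
        intro x hx
        rw [Set.mem_Ioo, ← abs_lt]
        have h2 : |x - a| ≤ b - a := by
          rw [abs_le]; constructor <;> linarith [hx.1, hx.2]
        have h3 := abs_sub_abs_le_abs_sub x a
        have : 0 ≤ max R₁ 0 := le_max_right _ _
        linarith
      calc _ ≤ ms (fun x => u x * d x ^ (-p)) (Ioo (-R) R) *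
            ms (sg p (fun x => u x * d x ^ (-p))) (Ioo (-R) R) ^ (p - 1) :=
            mul_le_mul' (ms_mono _ hsub) (ENNReal.rpow_le_rpow (ms_mono _ hsub) hp1.le)
        _ ≤ B * ENNReal.ofReal R ^ p := hB R hR1
        _ ≤ B * (ENNReal.ofReal (L * (b - a))) ^ p :=
            mul_le_mul' le_rfl (ENNReal.rpow_le_rpow (ENNReal.ofReal_le_ofReal hRL) hp0.le)
        _ = _ := by
            rw [ENNReal.ofReal_mul hL0.le, ENNReal.mul_rpow_of_nonneg _ _ hp0.le]; ring

end Pool.Agent.Q79.HW
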