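import Pool.Agent.Q79.HW.C2

set_option autoImplicit false

open MeasureTheory Filter Topology Set
open scoped ENNReal NNReal Real

namespace Pool.Agent.Q79.HW

lemma sg_pos' {p : ℝ} (hp : 1 < p) {u : ℝ → ℝ≥0∞} {x : ℝ} (h : u x ≠ ∞) : sg p u x ≠ 0 := by
  have hp1 : 0 < p - 1 := by linarith
  unfold sg
  rw [Ne, ENNReal.rpow_eq_zero_iff]
  rintro (h1 | h1)
  · have : 0 < 1 / (p - 1) := by positivity
    linarith [h1.2]
  · exact h h1.1

lemma sg_meas {p : ℝ} {u : ℝ → ℝ≥0∞} (hu : Measurable u) : Measurable (sg p u) :=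
  hu.pow_const _

lemma rp_anti {x y : ℝ≥0∞} {r : ℝ} (hr : r ≤ 0) (h : x ≤ y) : y ^ r ≤ x ^ r := by
  have e : ∀ z : ℝ≥0∞, z ^ r = (z ^ (-r))⁻¹ := by
    intro z
    rw [← ENNReal.rpow_neg, neg_neg]
  rw [e, e]
  exact ENNReal.inv_le_inv.2 (ENNReal.rpow_le_rpow h (by linarith))

/-- the shell `{a < |x| < b}` -/
lemma shell_meas (a b : ℝ) : MeasurableSet {x : ℝ | a < |x| ∧ |x| < b} := by
  apply MeasurableSet.inter
  · exact measurableSet_lt measurable_const measurable_norm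
  · exact measurableSet_lt measurable_norm measurable_const

lemma shell_vol {a b : ℝ} (ha : 0 ≤ a) (hab : a ≤ b) :
    ENNReal.ofReal (2 * (b - a)) ≤ volume {x : ℝ | a < |x| ∧ |x| < b} := by
  have hsub : Ioo a b ∪ Ioo (-b) (-a) ⊆ {x : ℝ | a < |x| ∧ |x| < b} := by
    rintro x (hx | hx)
    · have : |x| = x := abs_of_nonneg (ha.trans hx.1.le)
      show a < |x| ∧ |x| < b
      rw [this]; exact hx
    · have : |x| = -x := abs_of_nonpos (by linarith [hx.2])
      show a < |x| ∧ |x| < b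
      rw [this]
      constructor <;> linarith [hx.1, hx.2]
  refine le_trans (le_of_eq ?_) (measure_mono hsub)
  rw [measure_union _ measurableSet_Ioo, Real.volume_Ioo, Real.volume_Ioo,
    ← ENNReal.ofReal_add (by linarith) (by linarith)]
  · congr 1; ring
  · rw [Set.disjoint_left]
    intro x hx hx'
    linarith [hx.1, hx'.2]

theorem cen (hE1 : S_E1) (hE2 : S_E2) (hHO : S_HOLD) (hPO : S_POS) : S_CEN := by
  intro p u C h R₀ hR₀ hS hK
  have hp := h.hp
  have hp0 : 0 < p := by linarith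
  have hp1 : 0 < p - 1 := by linarith
  obtain ⟨A₁, hA₁⟩ := hE1 p u C h R₀ hR₀ hS hK
  obtain ⟨A₂, hA₂⟩ := hE2 p u C h R₀ hR₀ hS hK
  have hu0 := hPO p u C h
  set q : ℝ := p / (p - 1) with hq
  have hq0 : 0 < q := div_pos hp0 hp1
  set S := ms (sg p u) univ with hSdef
  have hσm : Measurable (sg p u) := sg_meas h.meas
  have hSpos : S ≠ 0 := by
    intro h0
    have : ∀ᵐ x, sg p u x = 0 := by
      have h1 : ∫⁻ x, sg p u x = 0 := by
        rw [← setLIntegral_univ]; exact h0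
      exact (lintegral_eq_zero_iff hσm).1 h1
    have h2 : ∀ᵐ x : ℝ, False := by
      filter_upwards [this] with x hx
      exact sg_pos' hp (h.fin x) hx
    rw [ae_iff] at h2
    simp at h2
  set d : ℝ → ℝ≥0∞ := fun x => ENNReal.ofReal (1 + |x|) with hd
  have hd1 : ∀ x : ℝ, 0 < 1 + |x| := fun x => by positivity
  have hd0 : ∀ x, d x ≠ 0 := fun x => by
    simp only [hd, Ne, ENNReal.ofReal_eq_zero, not_le]; exact hd1 x
  have hdt : ∀ x, d x ≠ ∞ := fun x => ENNReal.ofReal_ne_top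
  have hdm : Measurable d := by
    have : Measurable (fun x : ℝ => 1 + |x|) := by fun_prop
    exact this.ennreal_ofReal
  set w : ℝ → ℝ≥0∞ := fun x => u x * d x ^ (-p) with hw
  have hwm : Measurable w := h.meas.mul (hdm.pow_const _)
  have hone : ∀ x, 1 ≤ d x := fun x => by
    simp only [hd]
    rw [← ENNReal.ofReal_one]
    exact ENNReal.ofReal_le_ofReal (by linarith [abs_nonneg x])
  have hdp : ∀ x, d x ^ (-p) ≤ 1 := fun x =>
    ENNReal.rpow_le_one_of_one_le_of_neg (hone x) (by linarith)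
  have hwu : ∀ x, w x ≤ u x := fun x => by
    calc w x ≤ u x * 1 := mul_le_mul' le_rfl (hdp x)
      _ = u x := mul_one _
  -- core constants
  set w₀ := ms w (Ioo (-(8 * R₀ + 1)) (8 * R₀ + 1)) with hw₀
  have hw₀t : w₀ ≠ ∞ := by
    apply ne_top_of_le_ne_top (h.loc (-(8 * R₀ + 1)) (8 * R₀ + 1))
    exact lintegral_mono hwu
  set s₀ : ℝ≥0∞ := ENNReal.ofReal (1 + (8 * R₀ + 1)) ^ q * S with hs₀
  have hs₀t : s₀ ≠ ∞ :=
    ENNReal.mul_ne_top (ENNReal.rpow_ne_top_of_nonneg hq0.le ENNReal.ofReal_ne_top) hS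
  set M : ℝ → ℝ≥0∞ := fun R => ∫⁻ y in {y : ℝ | 8 * R₀ < |y| ∧ |y| < R},
        sg p u y * ENNReal.ofReal |y| ^ q with hM
  have hMmono : ∀ R R', R ≤ R' → M R ≤ M R' := by
    intro R R' hRR
    apply lintegral_mono_set
    intro y hy
    exact ⟨hy.1, lt_of_lt_of_le hy.2 hRR⟩
  have hMm : Measurable (fun y : ℝ => sg p u y * ENNReal.ofReal |y| ^ q) := by
    have : Measurable (fun x : ℝ => |x|) := by fun_prop
    exact hσm.mul (this.ennreal_ofReal.pow_const _)
  have hm₀ : M (16 * R₀) ≠ 0 := by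
    intro h0
    have h1 := (setLIntegral_eq_zero_iff (shell_meas (8 * R₀) (16 * R₀)) hMm).1 h0
    have h2 : ∀ᵐ x : ℝ, x ∉ {y : ℝ | 8 * R₀ < |y| ∧ |y| < 16 * R₀} := by
      filter_upwards [h1] with x hx hxs
      have h3 := hx hxs
      rcases mul_eq_zero.1 h3 with h4 | h4
      · exact sg_pos' hp (h.fin x) h4
      · rw [ENNReal.rpow_eq_zero_iff] at h4
        rcases h4 with h5 | h5
        · have h6 := ENNReal.ofReal_eq_zero.1 h5.1
          have h7 : 8 * R₀ < |x| := hxs.1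
          linarith
        · exact ENNReal.ofReal_ne_top h5.1
    have h3 : volume {y : ℝ | 8 * R₀ < |y| ∧ |y| < 16 * R₀} = 0 :=
      measure_eq_zero_iff_ae_notMem.2 h2
    have h4 := shell_vol (a := 8 * R₀) (b := 16 * R₀) (by linarith) (by linarith)
    rw [h3] at h4
    have h5 := ENNReal.ofReal_eq_zero.1 (le_antisymm h4 bot_le)
    linarith
  set m₀ := M (16 * R₀) with hm₀def
  set B₁ : ℝ≥0∞ := w₀ * S ^ (p - 1) + A₁ with hB₁
  set B₂ : ℝ≥0∞ := s₀ / m₀ + 2 ^ q with hB₂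
  have hB₁t : B₁ ≠ ∞ := by
    rw [hB₁]
    exact ENNReal.add_ne_top.2 ⟨ENNReal.mul_ne_top hw₀t
      (ENNReal.rpow_ne_top_of_nonneg hp1.le hS), ENNReal.coe_ne_top⟩
  have hB₂t : B₂ ≠ ∞ := by
    rw [hB₂]
    exact ENNReal.add_ne_top.2 ⟨(ENNReal.div_lt_top hs₀t hm₀).ne,
      ENNReal.rpow_ne_top_of_nonneg hq0.le (by simp)⟩
  set B : ℝ≥0∞ := B₁ * B₂ ^ (p - 1) * A₂ * 2 ^ p with hB
  have hBt : B ≠ ∞ := by
    rw [hB]
    refine ENNReal.mul_ne_top (ENNReal.mul_ne_top (ENNReal.mul_ne_top hB₁t ?_) ENNReal.coe_ne_top) ?_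
    · exact ENNReal.rpow_ne_top_of_nonneg hp1.le hB₂t
    · exact ENNReal.rpow_ne_top_of_nonneg hp0.le (by simp)
  refine ⟨B.toNNReal, 8 * R₀, ?_⟩
  intro R hR
  rw [ENNReal.coe_toNNReal hBt]
  have hRpos : 0 < R := by linarith
  set τ := ms (sg p u) {y : ℝ | 8 * R < |y|} with hτ
  have hτS : τ ≤ S := ms_mono _ (subset_univ _)
  -- bound for the weight
  have hW : ms w (Ioo (-R) R) ≤ B₁ * τ ^ (1 - p) := by
    have hcov : Ioo (-R) R ⊆ Ioo (-(8 * R₀ + 1)) (8 * R₀ + 1) ∪ {x : ℝ | 4 * R₀ < |x| ∧ |x| < 8 * R / 8} := by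
      intro x hx
      by_cases hx1 : |x| < 8 * R₀ + 1
      · left
        exact abs_lt.1 hx1
      · right
        push Not at hx1
        refine ⟨by linarith, ?_⟩
        have := abs_lt.2 hx
        linarith
    have h1 : ms w (Ioo (-R) R) ≤ w₀ + ∫⁻ x in {x : ℝ | 4 * R₀ < |x| ∧ |x| < 8 * R / 8},
        u x * ENNReal.ofReal |x| ^ (-p) := by
      refine (ms_mono w hcov).trans ((lintegral_union_le _ _ _).trans ?_)
      apply add_le_add le_rfl
      apply lintegral_mono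
      intro x
      apply mul_le_mul' le_rfl
      apply rp_anti (by linarith)
      exact ENNReal.ofReal_le_ofReal (by linarith)
    have h2 := hA₁ (8 * R) (by linarith)
    have h3 : w₀ ≤ w₀ * S ^ (p - 1) * τ ^ (1 - p) := by
      have h4 : S ^ (p - 1) * τ ^ (1 - p) ≥ 1 := by
        have h5 : S ^ (1 - p) ≤ τ ^ (1 - p) := rp_anti (by linarith) hτS
        calc (1:ℝ≥0∞) = S ^ (p - 1) * S ^ (1 - p) := by
              rw [← ENNReal.rpow_add _ _ hSpos hS]
              simp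
          _ ≤ _ := mul_le_mul' le_rfl h5
      calc w₀ = w₀ * 1 := (mul_one _).symm
        _ ≤ w₀ * (S ^ (p - 1) * τ ^ (1 - p)) := mul_le_mul' le_rfl h4
        _ = _ := by ring
    calc ms w (Ioo (-R) R) ≤ w₀ * S ^ (p - 1) * τ ^ (1 - p) + A₁ * τ ^ (1 - p) :=
          h1.trans (add_le_add h3 h2)
      _ = B₁ * τ ^ (1 - p) := by rw [hB₁]; ring
  -- bound for the dual weight
  have hV : ms (sg p w) (Ioo (-R) R) ≤ B₂ * M (4 * R) := by
    have e : ms (sg p w) (Ioo (-R) R) = ∫⁻ x in Ioo (-R) R, sg p u x * d x ^ q :=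
      ms_sg_mul hp hu0 (Eventually.of_forall hd0) hdt _
    rw [e]
    have hcov : Ioo (-R) R ⊆ Ioo (-(8 * R₀ + 1)) (8 * R₀ + 1) ∪ {y : ℝ | 8 * R₀ < |y| ∧ |y| < 4 * R} := by
      intro x hx
      by_cases hx1 : |x| < 8 * R₀ + 1
      · left
        exact abs_lt.1 hx1
      · right
        push Not at hx1
        refine ⟨by linarith, ?_⟩
        have := abs_lt.2 hx
        linarith
    have h1 : ∫⁻ x in Ioo (-(8 * R₀ + 1)) (8 * R₀ + 1), sg p u x * d x ^ q ≤ s₀ := by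
      calc ∫⁻ x in Ioo (-(8 * R₀ + 1)) (8 * R₀ + 1), sg p u x * d x ^ q
          ≤ ∫⁻ x in Ioo (-(8 * R₀ + 1)) (8 * R₀ + 1), sg p u x *
              ENNReal.ofReal (1 + (8 * R₀ + 1)) ^ q := by
            apply setLIntegral_mono' measurableSet_Ioo
            intro x hx
            apply mul_le_mul' le_rfl
            apply ENNReal.rpow_le_rpow _ hq0.le
            apply ENNReal.ofReal_le_ofReal
            have : |x| < 8 * R₀ + 1 := abs_lt.2 hx
            linarith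
        _ = (∫⁻ x in Ioo (-(8 * R₀ + 1)) (8 * R₀ + 1), sg p u x) *
              ENNReal.ofReal (1 + (8 * R₀ + 1)) ^ q := by
            rw [lintegral_mul_const _ hσm]
        _ ≤ S * ENNReal.ofReal (1 + (8 * R₀ + 1)) ^ q :=
            mul_le_mul' (ms_mono _ (subset_univ _)) le_rfl
        _ = s₀ := by rw [hs₀, mul_comm]
    have h2 : ∫⁻ x in {y : ℝ | 8 * R₀ < |y| ∧ |y| < 4 * R}, sg p u x * d x ^ q ≤
        2 ^ q * M (4 * R) := by
      rw [hM]
      have h2q : (2:ℝ≥0∞) ^ q ≠ ∞ := ENNReal.rpow_ne_top_of_nonneg hq0.le (by simp)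
      rw [← lintegral_const_mul' _ _ h2q]
      apply setLIntegral_mono' (shell_meas _ _)
      intro x hx
      have hx1 : 8 * R₀ < |x| := hx.1
      have h3 : d x ≤ 2 * ENNReal.ofReal |x| := by
        have : (2:ℝ≥0∞) = ENNReal.ofReal 2 := by norm_num
        rw [this, ← ENNReal.ofReal_mul (by norm_num)]
        exact ENNReal.ofReal_le_ofReal (by linarith)
      calc sg p u x * d x ^ q ≤ sg p u x * (2 * ENNReal.ofReal |x|) ^ q :=
            mul_le_mul' le_rfl (ENNReal.rpow_le_rpow h3 hq0.le)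
        _ = 2 ^ q * (sg p u x * ENNReal.ofReal |x| ^ q) := by
            rw [ENNReal.mul_rpow_of_nonneg _ _ hq0.le]; ring
    have h3 : s₀ ≤ s₀ / m₀ * M (4 * R) := by
      by_cases hmt : m₀ = ∞
      · have hMt : M (4 * R) = ∞ := by
          rw [← top_le_iff, ← hmt]
          exact hMmono _ _ (by linarith)
        exfalso
        -- `M` is finite
        have : M (16 * R₀) ≤ ENNReal.ofReal (16 * R₀) ^ q * S := by
          calc M (16 * R₀) ≤ ∫⁻ y in {y : ℝ | 8 * R₀ < |y| ∧ |y| < 16 * R₀},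
                sg p u y * ENNReal.ofReal (16 * R₀) ^ q := by
                apply setLIntegral_mono' (shell_meas _ _)
                intro x hx
                apply mul_le_mul' le_rfl
                apply ENNReal.rpow_le_rpow _ hq0.le
                exact ENNReal.ofReal_le_ofReal hx.2.le
            _ = (∫⁻ y in {y : ℝ | 8 * R₀ < |y| ∧ |y| < 16 * R₀}, sg p u y) *
                  ENNReal.ofReal (16 * R₀) ^ q := by
                rw [lintegral_mul_const _ hσm]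
            _ ≤ S * ENNReal.ofReal (16 * R₀) ^ q :=
                mul_le_mul' (ms_mono _ (subset_univ _)) le_rfl
            _ = _ := mul_comm _ _
        rw [← hm₀def, hmt, top_le_iff] at this
        exact ENNReal.mul_ne_top (ENNReal.rpow_ne_top_of_nonneg hq0.le ENNReal.ofReal_ne_top) hS this
      · calc s₀ = s₀ / m₀ * m₀ := (ENNReal.div_mul_cancel hm₀ hmt).symm
          _ ≤ s₀ / m₀ * M (4 * R) := mul_le_mul' le_rfl (hMmono _ _ (by linarith))
    calc ∫⁻ x in Ioo (-R) R, sg p u x * d x ^ q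
        ≤ ∫⁻ x in Ioo (-(8 * R₀ + 1)) (8 * R₀ + 1) ∪ {y : ℝ | 8 * R₀ < |y| ∧ |y| < 4 * R},
            sg p u x * d x ^ q := lintegral_mono_set hcov
      _ ≤ _ := lintegral_union_le _ _ _
      _ ≤ s₀ / m₀ * M (4 * R) + 2 ^ q * M (4 * R) := add_le_add (h1.trans h3) h2
      _ = B₂ * M (4 * R) := by rw [hB₂]; ring
  -- the main inequality
  have hMτ : M (4 * R) ^ (p - 1) ≤ A₂ * (2 ^ p * ENNReal.ofReal R ^ p) * τ ^ (p - 1) := by
    have h1 := hA₂ (4 * R) (by linarith)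
    have h2 := hHO p hp u h.meas hu0 (Eventually.of_forall h.fin)
      {x : ℝ | 2 * (4 * R) < |x| ∧ |x| < 3 * (4 * R)} (shell_meas _ _)
    have h3 : ms (sg p u) {x : ℝ | 2 * (4 * R) < |x| ∧ |x| < 3 * (4 * R)} ≤ τ := by
      apply ms_mono
      intro x hx
      have hx1 : 2 * (4 * R) < |x| := hx.1
      show 8 * R < |x|
      linarith
    have h4 : ENNReal.ofReal (8 * R) ^ p ≤
        volume {x : ℝ | 2 * (4 * R) < |x| ∧ |x| < 3 * (4 * R)} ^ p := by
      apply ENNReal.rpow_le_rpow _ hp0.le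
      refine le_trans (ENNReal.ofReal_le_ofReal ?_) (shell_vol (by linarith) (by linarith))
      linarith
    set J := {x : ℝ | 2 * (4 * R) < |x| ∧ |x| < 3 * (4 * R)} with hJ
    have h5 : M (4 * R) ^ (p - 1) * ENNReal.ofReal (8 * R) ^ p ≤
        A₂ * ENNReal.ofReal (4 * R) ^ (2 * p) * τ ^ (p - 1) := by
      calc M (4 * R) ^ (p - 1) * ENNReal.ofReal (8 * R) ^ p
          ≤ M (4 * R) ^ (p - 1) * (ms u J * τ ^ (p - 1)) := by
            apply mul_le_mul' le_rfl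
            exact h4.trans (h2.trans (mul_le_mul' le_rfl (ENNReal.rpow_le_rpow h3 hp1.le)))
        _ = (ms u J * M (4 * R) ^ (p - 1)) * τ ^ (p - 1) := by ring
        _ ≤ _ := mul_le_mul' h1 le_rfl
    have e1 : ENNReal.ofReal (4 * R) ^ (2 * p) =
        (2 ^ p * ENNReal.ofReal R ^ p) * ENNReal.ofReal (8 * R) ^ p := by
      rw [← ENNReal.mul_rpow_of_nonneg _ _ hp0.le, ← ENNReal.mul_rpow_of_nonneg _ _ hp0.le,
        ENNReal.rpow_mul]
      congr 1
      have h2' : (2:ℝ≥0∞) = ENNReal.ofReal 2 := by norm_num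
      rw [ENNReal.rpow_two, sq, h2', ← ENNReal.ofReal_mul (by linarith : (0:ℝ) ≤ 4 * R),
        ← ENNReal.ofReal_mul (by norm_num : (0:ℝ) ≤ 2),
        ← ENNReal.ofReal_mul (by linarith : (0:ℝ) ≤ 2 * R)]
      congr 1; ring

    have h8 : ENNReal.ofReal (8 * R) ^ p ≠ 0 := by
      rw [Ne, ENNReal.rpow_eq_zero_iff]
      rintro (h9 | h9)
      · have := ENNReal.ofReal_eq_zero.1 h9.1
        linarith
      · exact ENNReal.ofReal_ne_top h9.1
    have h8t : ENNReal.ofReal (8 * R) ^ p ≠ ∞ :=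
      ENNReal.rpow_ne_top_of_nonneg hp0.le ENNReal.ofReal_ne_top
    rw [e1] at h5
    have h6 : M (4 * R) ^ (p - 1) * ENNReal.ofReal (8 * R) ^ p ≤
        (A₂ * (2 ^ p * ENNReal.ofReal R ^ p) * τ ^ (p - 1)) * ENNReal.ofReal (8 * R) ^ p := by
      refine h5.trans (le_of_eq ?_)
      ring
    exact (ENNReal.mul_le_mul_iff_left h8 h8t).1 h6
  calc ms w (Ioo (-R) R) * ms (sg p w) (Ioo (-R) R) ^ (p - 1)
      ≤ (B₁ * τ ^ (1 - p)) * (B₂ * M (4 * R)) ^ (p - 1) :=
        mul_le_mul' hW (ENNReal.rpow_le_rpow hV hp1.le)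
    _ = B₁ * τ ^ (1 - p) * (B₂ ^ (p - 1) * M (4 * R) ^ (p - 1)) := by
        rw [ENNReal.mul_rpow_of_nonneg _ _ hp1.le]
    _ ≤ B₁ * τ ^ (1 - p) * (B₂ ^ (p - 1) *
          (A₂ * (2 ^ p * ENNReal.ofReal R ^ p) * τ ^ (p - 1))) := by gcongr
    _ = (B₁ * B₂ ^ (p - 1) * A₂ * 2 ^ p * ENNReal.ofReal R ^ p) *
          (τ ^ (1 - p) * τ ^ (p - 1)) := by ring
    _ ≤ (B₁ * B₂ ^ (p - 1) * A₂ * 2 ^ p * ENNReal.ofReal R ^ p) * 1 :=
        mul_le_mul' le_rfl (rp_mul_le _ hp)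
    _ = B * ENNReal.ofReal R ^ p := by rw [mul_one, hB]

end Pool.Agent.Q79.HW
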