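import Mathlib

/-!
# Weights for the Hilbert transform on functions of mean zero: definitions

Working definitions for MP_945c9c_an.
-/

set_option autoImplicit false

open MeasureTheory Filter Topology Set
open scoped ENNReal NNReal Real

namespace Pool.Agent.Q79.HW

/-- The truncated Hilbert transform `(1/π) ∫_{|y - x| > δ} f(y)/(x - y) dy`. -/
noncomputable def trunc {𝕜 : Type} [RCLike 𝕜] (f : ℝ → 𝕜) (δ x : ℝ) : 𝕜 :=
  ((1 / π : ℝ) : 𝕜) * ∫ y in {y : ℝ | δ < |y - x|}, f y / ((x - y : ℝ) : 𝕜)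

open Classical in
/-- The Hilbert transform `Hf(x) = (1/π) lim_{δ ↓ 0} ∫_{|y - x| > δ} f(y)/(x - y) dy`, the limit where
it exists (which, for integrable `f`, is the case at almost every `x`), and `0` at the other points. -/
noncomputable def hilb {𝕜 : Type} [RCLike 𝕜] (f : ℝ → 𝕜) (x : ℝ) : 𝕜 :=
  if h : ∃ L : 𝕜, Tendsto (fun δ : ℝ => trunc f δ x) (𝓝[>] 0) (𝓝 L) then h.choose else 0

/-- A weight: a measurable, locally integrable function `U : ℝ → [0, ∞)` that is not a.e. zero. -/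
structure IsWeight (U : ℝ → ℝ) : Prop where
  meas : Measurable U
  nonneg : ∀ x, 0 ≤ U x
  loc : LocallyIntegrable U volume
  nonzero : ¬ ∀ᵐ x, U x = 0

/-- The Muckenhoupt class `A_p`: weights `W` with
`(∫_I W) (∫_I W^{-1/(p-1)})^{p-1} ≤ C |I|^p` for all bounded intervals `I`
(integrals in `[0, ∞]`, and `0^{-1/(p-1)} = ∞`). -/
structure MemAp (p : ℝ) (W : ℝ → ℝ) : Prop where
  weight : IsWeight W
  bdd : ∃ C : ℝ≥0, ∀ a b : ℝ, a < b →
    (∫⁻ x in Ioo a b, ENNReal.ofReal (W x)) *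
      (∫⁻ x in Ioo a b, ENNReal.ofReal (W x) ^ (-(1 / (p - 1)))) ^ (p - 1) ≤
      C * ENNReal.ofReal (b - a) ^ p

/-- `U` is admissible: `∫ |Hf|^p U ≤ C ∫ |f|^p U` for all integrable `f` with `∫ f = 0`. -/
def Admissible (𝕜 : Type) [RCLike 𝕜] (p : ℝ) (U : ℝ → ℝ) : Prop :=
  ∃ C : ℝ≥0, ∀ f : ℝ → 𝕜, Integrable f → ∫ x, f x = 0 →
    ∫⁻ x, ‖hilb f x‖ₑ ^ p * ENNReal.ofReal (U x) ≤ C * ∫⁻ x, ‖f x‖ₑ ^ p * ENNReal.ofReal (U x)

/-- The dual weight `u^{-1/(p-1)}` of a `[0, ∞]`-valued weight. -/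
noncomputable def sg (p : ℝ) (u : ℝ → ℝ≥0∞) (x : ℝ) : ℝ≥0∞ := u x ^ (-(1 / (p - 1)))

/-- `∫_E u` -/
noncomputable def ms (u : ℝ → ℝ≥0∞) (E : Set ℝ) : ℝ≥0∞ := ∫⁻ x in E, u x

/-- The `A_p` condition for a `[0, ∞]`-valued function. -/
def ApE (p : ℝ) (w : ℝ → ℝ≥0∞) : Prop :=
  ∃ C : ℝ≥0, ∀ a b : ℝ, a < b → ms w (Ioo a b) * ms (sg p w) (Ioo a b) ^ (p - 1) ≤
    C * ENNReal.ofReal (b - a) ^ p

/-- Working form of admissibility: only real `f`, and only on open sets on which `f` vanishes (where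
the Hilbert transform is an ordinary integral). The weight is `[0, ∞]`-valued. -/
def Adm (p : ℝ) (u : ℝ → ℝ≥0∞) (C : ℝ≥0) : Prop :=
  ∀ f : ℝ → ℝ, Measurable f → Integrable f → ∫ x, f x = 0 → ∀ J : Set ℝ, IsOpen J →
    (∀ x ∈ J, f x = 0) →
    ∫⁻ x in J, ENNReal.ofReal |∫ y, f y / (x - y)| ^ p * u x ≤
      C * ∫⁻ x, ENNReal.ofReal |f x| ^ p * u x

/-- The standing assumptions on the weight in the necessity part. -/
structure Std (p : ℝ) (u : ℝ → ℝ≥0∞) (C : ℝ≥0) : Prop where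
  hp : 1 < p
  meas : Measurable u
  fin : ∀ x, u x ≠ ∞
  loc : ∀ a b : ℝ, ms u (Ioo a b) ≠ ∞
  nonzero : ¬ ∀ᵐ x, u x = 0
  hC : 0 < C
  adm : Adm p u C

end Pool.Agent.Q79.HW
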