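import Pool.Agent.Q79.HW.StmN

set_option autoImplicit false

open MeasureTheory Filter Topology Set
open scoped ENNReal NNReal Real

namespace Pool.Agent.Q79.HW

lemma ms_mono (u : ℝ → ℝ≥0∞) {E F : Set ℝ} (h : E ⊆ F) : ms u E ≤ ms u F :=
  lintegral_mono_set h

lemma rp_mul_le (x : ℝ≥0∞) {p : ℝ} (hp : 1 < p) : x ^ (1 - p) * x ^ (p - 1) ≤ 1 := by
  have hp' : 0 < p - 1 := by linarith
  have e : x ^ (1 - p) = (x ^ (p - 1))⁻¹ := by
    rw [← ENNReal.rpow_neg]; congr 1; ring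
  rw [e]
  exact ENNReal.inv_mul_le_one _

lemma rp_half {x y : ℝ≥0∞} {p : ℝ} (hp : 1 < p) (h : x ≤ 2 * y) :
    y ^ (1 - p) ≤ 2 ^ (p - 1) * x ^ (1 - p) := by
  have hp' : 0 ≤ p - 1 := by linarith
  have e : ∀ z : ℝ≥0∞, z ^ (1 - p) = (z ^ (p - 1))⁻¹ := by
    intro z
    rw [← ENNReal.rpow_neg]; congr 1; ring
  have h2 : x ^ (p - 1) ≤ 2 ^ (p - 1) * y ^ (p - 1) := by
    rw [← ENNReal.mul_rpow_of_nonneg _ _ hp']
    exact ENNReal.rpow_le_rpow h hp'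
  have h20 : (2:ℝ≥0∞) ^ (p - 1) ≠ 0 := by
    simp [ENNReal.rpow_eq_zero_iff]
  have h2t : (2:ℝ≥0∞) ^ (p - 1) ≠ ∞ := ENNReal.rpow_ne_top_of_nonneg hp' (by simp)
  rw [e, e]
  have h3 : (2 ^ (p - 1) * y ^ (p - 1))⁻¹ ≤ (x ^ (p - 1))⁻¹ := ENNReal.inv_le_inv.2 h2
  rw [ENNReal.mul_inv (Or.inl h20) (Or.inl h2t)] at h3
  calc (y ^ (p - 1))⁻¹ = 2 ^ (p - 1) * ((2 ^ (p - 1))⁻¹ * (y ^ (p - 1))⁻¹) := by
        rw [← mul_assoc, ENNReal.mul_inv_cancel h20 h2t, one_mul]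
    _ ≤ _ := mul_le_mul' le_rfl h3

/-- one application of the pair test -/
lemma half (hPT : S_PT) {p : ℝ} {u : ℝ → ℝ≥0∞} {C : ℝ≥0} (h : Std p u C) {a h' : ℝ} (hh : 0 < h')
    {I J K : Set ℝ} (hI : MeasurableSet I) (hJ : IsOpen J) (hK : MeasurableSet K)
    (hIs : I ⊆ Ioo a (a + 2 * h')) (hJs : J ⊆ Ioo a (a + 2 * h'))
    (hIJ : (∀ x ∈ J, ∀ y ∈ I, 0 < x - y) ∨ (∀ x ∈ J, ∀ y ∈ I, 0 < y - x))
    (hKd : ∀ x ∈ Ioo a (a + 2 * h'), ∀ z ∈ K, 4 * h' ≤ |x - z|)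
    (hσ : ms (sg p u) (Ioo a (a + 2 * h')) ≤ 2 * ms (sg p u) K) :
    ms u J * ms (sg p u) I ^ (p - 1) ≤
      ((C * 4 ^ p * (1 + 2 ^ (p - 1)) : ℝ≥0) : ℝ≥0∞) * ENNReal.ofReal h' ^ p := by
  have hp := h.hp
  have hp0 : 0 ≤ p := by linarith
  have hp1 : 0 ≤ p - 1 := by linarith
  have hdis : Disjoint I K := by
    rw [Set.disjoint_left]
    intro z hz hz'
    have := hKd z (hIs hz) z hz'
    simp at this
    linarith
  have h1 := hPT p u C h I J K hI hJ hK hdis (2 * h') (by linarith) (by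
    rcases hIJ with hl | hl
    · left
      intro x hx y hy
      have hx' := hJs hx
      have hy' := hIs hy
      exact ⟨hl x hx y hy, by linarith [hx'.2, hy'.1]⟩
    · right
      intro x hx y hy
      have hx' := hJs hx
      have hy' := hIs hy
      exact ⟨hl x hx y hy, by linarith [hx'.1, hy'.2]⟩)
    (by
      intro x hx z hz
      have := hKd x (hJs hx) z hz
      linarith)
  have h2 : ms (sg p u) K ^ (1 - p) ≤ 2 ^ (p - 1) * ms (sg p u) I ^ (1 - p) :=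
    rp_half hp ((ms_mono _ hIs).trans hσ)
  have e1 : ENNReal.ofReal (2 * (2 * h')) ^ p = 4 ^ p * ENNReal.ofReal h' ^ p := by
    rw [← ENNReal.mul_rpow_of_nonneg _ _ hp0]
    congr 1
    have : (2 * (2 * h')) = 4 * h' := by ring
    rw [this, ENNReal.ofReal_mul (by norm_num)]
    norm_num
  have e2 : ((C * 4 ^ p * (1 + 2 ^ (p - 1)) : ℝ≥0) : ℝ≥0∞) =
      C * 4 ^ p * (1 + 2 ^ (p - 1)) := by
    push_cast
    rw [ENNReal.coe_rpow_of_nonneg _ hp0, ENNReal.coe_rpow_of_nonneg _ hp1]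
    norm_num
  rw [e2]
  calc ms u J * ms (sg p u) I ^ (p - 1)
      ≤ (C * ENNReal.ofReal (2 * (2 * h')) ^ p *
          (ms (sg p u) I ^ (1 - p) + ms (sg p u) K ^ (1 - p))) * ms (sg p u) I ^ (p - 1) :=
        mul_le_mul' h1 le_rfl
    _ ≤ (C * (4 ^ p * ENNReal.ofReal h' ^ p) *
          (ms (sg p u) I ^ (1 - p) + 2 ^ (p - 1) * ms (sg p u) I ^ (1 - p))) *
          ms (sg p u) I ^ (p - 1) := by
        rw [e1]
        gcongr
    _ = (C * 4 ^ p * (1 + 2 ^ (p - 1)) * ENNReal.ofReal h' ^ p) *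
          (ms (sg p u) I ^ (1 - p) * ms (sg p u) I ^ (p - 1)) := by ring
    _ ≤ (C * 4 ^ p * (1 + 2 ^ (p - 1)) * ENNReal.ofReal h' ^ p) * 1 :=
        mul_le_mul' le_rfl (rp_mul_le _ hp)
    _ = _ := by rw [mul_one]

theorem loc (hPT : S_PT) (hPA : S_PAIR) (hPO : S_POS) : S_LOC := by
  intro p u C h
  refine ⟨(C * 4 ^ p * (1 + 2 ^ (p - 1))) ^ 2, ?_⟩
  intro a h' hh K hK hKd hσ
  have hfin : ∀ᵐ x, u x ≠ ∞ := Eventually.of_forall h.fin
  have h0 := hPO p u C h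
  have sub1 : Ioo a (a + h') ⊆ Ioo a (a + 2 * h') := Ioo_subset_Ioo le_rfl (by linarith)
  have sub2 : Ioo (a + h') (a + 2 * h') ⊆ Ioo a (a + 2 * h') := Ioo_subset_Ioo (by linarith) le_rfl
  have h1 := half hPT h hh measurableSet_Ioo isOpen_Ioo hK sub1 sub2 (Or.inl (by
    intro x hx y hy
    linarith [hx.1, hy.2])) hKd hσ
  have h2 := half hPT h hh measurableSet_Ioo isOpen_Ioo hK sub2 sub1 (Or.inr (by
    intro x hx y hy
    linarith [hx.2, hy.1])) hKd hσ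
  have h3 := hPA p h.hp u h.meas h0 hfin _ a h' hh h1 h2
  rw [ENNReal.coe_pow]
  exact h3

theorem c1 (hLOC : S_LOC) : S_C1 := by
  intro p u C h hinf
  obtain ⟨A, hA⟩ := hLOC p u C h
  refine ⟨A, ?_⟩
  intro a b hab
  have hm : 0 < b - a := by linarith
  have h1 := hA a (b - a) hm {x | |a| + 6 * (b - a) < |x|}
    (measurableSet_lt measurable_const measurable_norm) (by
      intro x hx z hz
      have hz' : |a| + 6 * (b - a) < |z| := hz
      have hx1 : |x| ≤ |a| + 2 * (b - a) := by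
        rw [abs_le]
        constructor
        · have := neg_abs_le a
          linarith [hx.1]
        · have := le_abs_self a
          linarith [hx.2]
      have : |z| - |x| ≤ |x - z| := by
        rw [abs_sub_comm]
        exact abs_sub_abs_le_abs_sub z x
      linarith) (by
      rw [hinf]
      simp)
  have e : a + (b - a) = b := by ring
  rw [e] at h1
  exact h1

end Pool.Agent.Q79.HW
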