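import Pool.Agent.Q79.HW.C3

set_option autoImplicit false

open MeasureTheory Filter Topology Set
open scoped ENNReal NNReal Real

namespace Pool.Agent.Q79.HW

lemma toAp {p : ℝ} (hp : 1 < p) {W : ℝ → ℝ} (hW : Measurable W) (hWn : ∀ x, 0 ≤ W x)
    {w : ℝ → ℝ≥0∞} (hw : Measurable w) (hWw : ∀ᵐ x, ENNReal.ofReal (W x) = w x)
    (hw0 : ∀ᵐ x, w x ≠ 0) (hAp : ApE p w) : MemAp p W := by
  have hp1 : 0 < p - 1 := by linarith
  obtain ⟨C, hC⟩ := hAp
  have hwt : ∀ᵐ x, w x ≠ ∞ := by
    filter_upwards [hWw] with x hx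
    rw [← hx]; exact ENNReal.ofReal_ne_top
  have e1 : ∀ a b : ℝ, ∫⁻ x in Ioo a b, ENNReal.ofReal (W x) = ms w (Ioo a b) := by
    intro a b
    exact lintegral_congr_ae (ae_restrict_of_ae hWw)
  have e2 : ∀ a b : ℝ, ∫⁻ x in Ioo a b, ENNReal.ofReal (W x) ^ (-(1 / (p - 1))) =
      ms (sg p w) (Ioo a b) := by
    intro a b
    apply lintegral_congr_ae
    apply ae_restrict_of_ae
    filter_upwards [hWw] with x hx
    rw [hx]
    rfl
  have hpos : ∀ a b : ℝ, a < b → ms (sg p w) (Ioo a b) ≠ 0 := by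
    intro a b hab h0
    have h1 := (setLIntegral_eq_zero_iff measurableSet_Ioo (sg_meas hw)).1 h0
    have h2 : ∀ᵐ x : ℝ, x ∉ Ioo a b := by
      filter_upwards [h1, hwt] with x hx hx2 hxs
      exact sg_pos' hp hx2 (hx hxs)
    have h3 : volume (Ioo a b) = 0 := measure_eq_zero_iff_ae_notMem.2 h2
    rw [Real.volume_Ioo, ENNReal.ofReal_eq_zero] at h3
    linarith
  have hfin : ∀ a b : ℝ, a < b → ms w (Ioo a b) ≠ ∞ := by
    intro a b hab htop
    have h1 := hC a b hab
    rw [htop, ENNReal.top_mul] at h1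
    · have h2 : (C : ℝ≥0∞) * ENNReal.ofReal (b - a) ^ p ≠ ∞ :=
        ENNReal.mul_ne_top ENNReal.coe_ne_top
          (ENNReal.rpow_ne_top_of_nonneg (by linarith) ENNReal.ofReal_ne_top)
      exact h2 (top_le_iff.1 h1)
    · rw [Ne, ENNReal.rpow_eq_zero_iff]
      rintro (h3 | h3)
      · exact hpos a b hab h3.1
      · linarith [h3.2]
  refine ⟨⟨hW, hWn, ?_, ?_⟩, ⟨C, ?_⟩⟩
  · intro x
    refine ⟨Ioo (x - 1) (x + 1), Ioo_mem_nhds (by linarith) (by linarith), ?_⟩
    refine ⟨hW.aestronglyMeasurable, ?_⟩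
    rw [hasFiniteIntegral_iff_enorm]
    have : ∀ y, ‖W y‖ₑ = ENNReal.ofReal (W y) := fun y => by
      rw [Real.enorm_eq_ofReal (hWn y)]
    simp_rw [this]
    rw [e1]
    exact lt_top_iff_ne_top.2 (hfin _ _ (by linarith))
  · intro h0
    have : ∀ᵐ x : ℝ, False := by
      filter_upwards [h0, hWw, hw0] with x h1 h2 h3
      rw [h1, ENNReal.ofReal_zero] at h2
      exact h3 h2.symm
    rw [ae_iff] at this
    simp at this
  · intro a b hab
    rw [e1, e2]
    exact hC a b hab

theorem nec (hRED : S_RED) (hPO : S_POS) (hC1 : S_C1) (hC2 : S_C2) (hC3 : S_C3) : S_NEC := by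
  intro 𝕜 _ p hp U hU hadm
  obtain ⟨C, h⟩ := hRED 𝕜 p hp U hU hadm
  set u : ℝ → ℝ≥0∞ := fun x => ENNReal.ofReal (U x) with hu
  have hu0 := hPO p u C h
  by_cases h1 : ∀ R : ℝ, ms (sg p u) {x | R < |x|} = ∞
  · left
    exact toAp hp hU.meas hU.nonneg h.meas (Eventually.of_forall fun x => rfl) hu0 (hC1 p u C h h1)
  right
  by_cases h2 : ∃ c : ℝ, ∀ r : ℝ, 0 < r → ms (sg p u) (Ioo (c - r) (c + r)) = ∞
  · right
    obtain ⟨c, hc⟩ := h2
    refine ⟨c, ?_⟩
    have hdm : Measurable (fun x : ℝ => ENNReal.ofReal |x - c|) := by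
      have : Measurable (fun x : ℝ => |x - c|) := by fun_prop
      exact this.ennreal_ofReal
    have hne : ∀ᵐ x : ℝ, x ≠ c := by
      rw [ae_iff]; simp
    apply toAp hp (w := fun x => u x * ENNReal.ofReal |x - c| ^ (-p))
    · have : Measurable (fun x : ℝ => |x - c| ^ p) := by fun_prop
      exact hU.meas.div this
    · intro x
      exact div_nonneg (hU.nonneg x) (Real.rpow_nonneg (abs_nonneg _) _)
    · exact h.meas.mul (hdm.pow_const _)
    · filter_upwards [hne] with x hx
      have hx0 : 0 < |x - c| := abs_pos.2 (sub_ne_zero.2 hx)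
      rw [ENNReal.ofReal_div_of_pos (Real.rpow_pos_of_pos hx0 _), div_eq_mul_inv,
        ← ENNReal.ofReal_rpow_of_pos hx0, ENNReal.rpow_neg]
    · filter_upwards [hu0, hne] with x hx hxc
      apply mul_ne_zero hx
      rw [Ne, ENNReal.rpow_eq_zero_iff]
      rintro (h3 | h3)
      · linarith [h3.2]
      · exact ENNReal.ofReal_ne_top h3.1
    · exact hC2 p u C h c hc
  · left
    push Not at h1 h2
    obtain ⟨R, hR⟩ := h1
    have hfin : ms (sg p u) univ ≠ ∞ := by
      have hcomp : ms (sg p u) (Icc (-R) R) ≠ ∞ := by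
        apply (isCompact_Icc (a := -R) (b := R)).induction_on (p := fun s => ms (sg p u) s ≠ ∞)
        · simp [ms]
        · intro s t hst ht
          exact ne_top_of_le_ne_top ht (ms_mono _ hst)
        · intro s t hs ht
          apply ne_top_of_le_ne_top (ENNReal.add_ne_top.2 ⟨hs, ht⟩)
          exact lintegral_union_le _ _ _
        · intro x _
          obtain ⟨r, hr, hr2⟩ := h2 x
          exact ⟨Ioo (x - r) (x + r), mem_nhdsWithin_of_mem_nhds
            (Ioo_mem_nhds (by linarith) (by linarith)), hr2⟩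
      have hU' : (univ : Set ℝ) ⊆ {x | R < |x|} ∪ Icc (-R) R := by
        intro x _
        by_cases hx : R < |x|
        · exact Or.inl hx
        · right
          exact abs_le.1 (not_lt.1 hx)
      apply ne_top_of_le_ne_top (ENNReal.add_ne_top.2 ⟨hR, hcomp⟩)
      exact (ms_mono _ hU').trans (lintegral_union_le _ _ _)
    have hdm : Measurable (fun x : ℝ => ENNReal.ofReal (1 + |x|)) := by
      have : Measurable (fun x : ℝ => 1 + |x|) := by fun_prop
      exact this.ennreal_ofReal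
    apply toAp hp (w := fun x => u x * ENNReal.ofReal (1 + |x|) ^ (-p))
    · have : Measurable (fun x : ℝ => (1 + |x|) ^ p) := by fun_prop
      exact hU.meas.div this
    · intro x
      exact div_nonneg (hU.nonneg x) (Real.rpow_nonneg (by positivity) _)
    · exact h.meas.mul (hdm.pow_const _)
    · refine Eventually.of_forall fun x => ?_
      have hx0 : 0 < 1 + |x| := by positivity
      rw [ENNReal.ofReal_div_of_pos (Real.rpow_pos_of_pos hx0 _), div_eq_mul_inv,
        ← ENNReal.ofReal_rpow_of_pos hx0, ENNReal.rpow_neg]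
    · filter_upwards [hu0] with x hx
      apply mul_ne_zero hx
      rw [Ne, ENNReal.rpow_eq_zero_iff]
      rintro (h3 | h3)
      · linarith [h3.2]
      · exact ENNReal.ofReal_ne_top h3.1
    · exact hC3 p u C h hfin

end Pool.Agent.Q79.HW
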