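import Pool.Agent.Q79.HW.Defs

/-!
# Necessity part of the characterization of the admissible weights (MP_945c9c_an): lemma statements

Notation in the comments: `σ = sg p u = u^{-1/(p-1)}`, `q = p/(p-1)`, `u(E) = ∫_E u = ms u E`.
-/

set_option autoImplicit false

open MeasureTheory Filter Topology Set
open scoped ENNReal NNReal Real

namespace Pool.Agent.Q79.HW

/-- **RED** (from the principal value to the working form).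
Proof. `Admissible 𝕜 p U` with constant `C₀` gives `Adm` with `C = π^p C₀ + 1`: let `f : ℝ → ℝ` be as in
`Adm` and put `F y = (f y : 𝕜)` (algebraMap/ofReal). If `x ∈ J`, `J` open and `f = 0` on `J`, choose
`r > 0` with `ball x r ⊆ J`; for `0 < δ < r` the set integral over `δ < |y - x|` of `F y / (x - y)` equals
the integral over all `y` (the integrand vanishes on `|y - x| ≤ δ`), so `trunc F δ x` is eventually
constant, equal to `(1/π) ∫ f y/(x - y)` (cast to `𝕜`; `integral_ofReal`), hence `hilb F x` is that number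
(uniqueness of limits, `tendsto_nhds_unique`). So on `J`:
`ofReal |∫ f y/(x-y)| = ofReal π * ‖hilb F x‖ₑ`. Multiply by the weight and integrate.
The other fields of `Std` are immediate (`ms u (Ioo a b) ≠ ∞` from local integrability). -/
def S_RED : Prop := ∀ (𝕜 : Type) [RCLike 𝕜] (p : ℝ), 1 < p → ∀ U : ℝ → ℝ, IsWeight U →
  Admissible 𝕜 p U → ∃ C : ℝ≥0, Std p (fun x => ENNReal.ofReal (U x)) C

/-- **POS** (`u > 0` almost everywhere).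
Proof. Let `Z = {u = 0}`, `F = {u ≠ 0}`; `|F| > 0` by `nonzero`. Suppose `|Z| > 0`. Choose `x₀` such that
every neighbourhood of `x₀` meets `Z` in positive measure and `y₀ ≠ x₀` such that every neighbourhood of
`y₀` meets `F` in positive measure (`MeasureTheory.exists_mem_forall_mem_nhdsWithin_pos_measure` for `Z`
and for `F \ {x₀}`). Let `r = |x₀ - y₀| / 4`, `A = Z ∩ Ioo (x₀ - r) (x₀ + r)` (positive measure). There is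
`m` with `|A ∩ Iio m| > 0` and `|A ∩ Ioi m| > 0` (otherwise halving gives a contradiction; or take two
different points of the support of `volume.restrict A`). Put `E₁ = A ∩ Iio m`, `E₂ = A ∩ Ioi m`,
`f = 1_{E₁}/|E₁| - 1_{E₂}/|E₂|` (bounded, compact support, mean zero, `∫ |f|^p u = 0` because `u = 0` on
`A`), `J = Ioo (y₀ - r) (y₀ + r)` (disjoint from `A`, and at distance `≥ 2r` of it). For `x ∈ J`,
`x > x₀ + r` say: `y ↦ 1/(x - y)` is strictly increasing on `A`, so the integral of `f y/(x - y)` is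
`< 0` (compare both parts with the value `1/(x - m)`), in the other case it is also nonzero. By `Adm`
the integral over `J` of `|∫ f/(x-y)|^p u` is `0`, so `u = 0` a.e. on `J`: contradiction. -/
def S_POS : Prop := ∀ (p : ℝ) (u : ℝ → ℝ≥0∞) (C : ℝ≥0), Std p u C → ∀ᵐ x, u x ≠ 0

/-- **HOLD** (Hölder): `|E|^p ≤ w(E) σ_w(E)^{p-1}`.
Proof. `1 = w^{1/p} σ^{1/q}` a.e. with `σ = w^{-1/(p-1)}`, `1/q = (p-1)/p`; Hölder
(`ENNReal.lintegral_mul_le_Lp_mul_Lq`), then the power `p`. -/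
def S_HOLD : Prop := ∀ (p : ℝ), 1 < p → ∀ w : ℝ → ℝ≥0∞, Measurable w → (∀ᵐ x, w x ≠ 0) →
  (∀ᵐ x, w x ≠ ∞) → ∀ E : Set ℝ, MeasurableSet E →
    volume E ^ p ≤ ms w E * ms (sg p w) E ^ (p - 1)

/-- **PAIR** (two neighbouring intervals of equal length).
Proof. Let `I = Ioo a (a+h)`, `J = Ioo (a+h) (a+2h)` (both orders are covered by the second version).
All four numbers `w(I), w(J), σ(I), σ(J)` are nonzero (`w ≠ 0` a.e. and `w ≠ ∞` a.e., so `σ ≠ 0` a.e.),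
so by `h1`, `h2` all four are finite. Multiply `h1` and `h2`:
`[w(I) σ(I)^{p-1}] [w(J) σ(J)^{p-1}] ≤ A² h^{2p}` and by HOLD (for `J`) the second bracket is `≥ h^p > 0`. -/
def S_PAIR : Prop := ∀ (p : ℝ), 1 < p → ∀ w : ℝ → ℝ≥0∞, Measurable w → (∀ᵐ x, w x ≠ 0) →
  (∀ᵐ x, w x ≠ ∞) → ∀ (A : ℝ≥0) (a h : ℝ), 0 < h →
  ms w (Ioo (a + h) (a + 2 * h)) * ms (sg p w) (Ioo a (a + h)) ^ (p - 1) ≤
    A * ENNReal.ofReal h ^ p →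
  ms w (Ioo a (a + h)) * ms (sg p w) (Ioo (a + h) (a + 2 * h)) ^ (p - 1) ≤
    A * ENNReal.ofReal h ^ p →
  ms w (Ioo a (a + h)) * ms (sg p w) (Ioo a (a + h)) ^ (p - 1) ≤ A ^ 2 * ENNReal.ofReal h ^ p

/-- **TF** (almost extremal test functions).
Proof. `t_n = min(σ, n) 1_{E ∩ [-n, n]}` (real valued: `(min (σ x) n).toReal`); the integrals of the
`t_n` increase to `σ(E)` (monotone convergence), so some `n` has `S := ∫ t_n > s`. Since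
`t_n^{p-1} u ≤ σ^{p-1} u ≤ 1` pointwise (`σ^{p-1} = u⁻¹`, also when `u = 0`: then
`t_n^{p-1} u = 0` as `t_n < ∞`), `g = t_n / S` has
`∫ g^p u = S^{-p} ∫ t_n (t_n^{p-1} u) ≤ S^{-p} S = S^{1-p} ≤ s^{1-p}`. -/
def S_TF : Prop := ∀ (p : ℝ), 1 < p → ∀ u : ℝ → ℝ≥0∞, Measurable u → (∀ x, u x ≠ ∞) →
  ∀ E : Set ℝ, MeasurableSet E → ∀ s : ℝ≥0, 0 < s → (s : ℝ≥0∞) < ms (sg p u) E →
  ∃ g : ℝ → ℝ, Measurable g ∧ Integrable g ∧ (∀ x, 0 ≤ g x) ∧ (∀ x, x ∉ E → g x = 0) ∧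
    (∃ B : ℝ, ∀ x, g x ≤ B) ∧ (∃ R : ℝ, ∀ x, R < |x| → g x = 0) ∧ ∫ x, g x = 1 ∧
    ∫⁻ x, ENNReal.ofReal (g x) ^ p * u x ≤ (s : ℝ≥0∞) ^ (1 - p)

/-- **PT** (pair test).
Proof. For `0 < s < σ(I)`, `0 < t < σ(K)` take `g` (for `I`) and `k` (for `K`) from TF and `f = g - k`
(mean zero, vanishes on `J`: `J ∩ I = ∅` by the sign condition, `J ∩ K = ∅` as `2D > 0`). For `x ∈ J`:
`|∫ g y/(x-y)| ≥ 1/D` (constant sign and `|x - y| ≤ D` where `g ≠ 0`), `|∫ k z/(x-z)| ≤ 1/(2D)`, so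
`|∫ f y/(x-y)| ≥ 1/(2D)`. As `I ∩ K = ∅`, `|f|^p = g^p + k^p`. `Adm` gives
`(2D)^{-p} u(J) ≤ C (s^{1-p} + t^{1-p})`. Let `s → σ(I)`, `t → σ(K)` (continuity of `x ↦ x^{1-p}` on
`(0,∞]`; if `σ(I) = 0` or `σ(K) = 0` the right side is `∞` because `C > 0`, `D > 0`). -/
def S_PT : Prop := ∀ (p : ℝ) (u : ℝ → ℝ≥0∞) (C : ℝ≥0), Std p u C →
  ∀ (I J K : Set ℝ), MeasurableSet I → IsOpen J → MeasurableSet K → Disjoint I K →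
  ∀ D : ℝ, 0 < D →
  ((∀ x ∈ J, ∀ y ∈ I, 0 < x - y ∧ x - y ≤ D) ∨ (∀ x ∈ J, ∀ y ∈ I, 0 < y - x ∧ y - x ≤ D)) →
  (∀ x ∈ J, ∀ z ∈ K, 2 * D ≤ |x - z|) →
  ms u J ≤ C * ENNReal.ofReal (2 * D) ^ p *
    (ms (sg p u) I ^ (1 - p) + ms (sg p u) K ^ (1 - p))

/-- **LOC**: the `A_p` bound for `I = (a, a+h)` if enough mass of `σ` is far from `(a, a+2h)`.
Proof. PT twice with `D = 2h` (`I`, `J` the two halves of `(a, a+2h)` in both orders), then PAIR. -/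
def S_LOC : Prop := ∀ (p : ℝ) (u : ℝ → ℝ≥0∞) (C : ℝ≥0), Std p u C → ∃ A : ℝ≥0,
  ∀ a h : ℝ, 0 < h → ∀ K : Set ℝ, MeasurableSet K →
  (∀ x ∈ Ioo a (a + 2 * h), ∀ z ∈ K, 4 * h ≤ |x - z|) →
  ms (sg p u) (Ioo a (a + 2 * h)) ≤ 2 * ms (sg p u) K →
  ms u (Ioo a (a + h)) * ms (sg p u) (Ioo a (a + h)) ^ (p - 1) ≤ A * ENNReal.ofReal h ^ p

/-- **C1**: infinite mass at infinity. -/
def S_C1 : Prop := ∀ (p : ℝ) (u : ℝ → ℝ≥0∞) (C : ℝ≥0), Std p u C →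
  (∀ R : ℝ, ms (sg p u) {x | R < |x|} = ∞) → ApE p u

/-- **WT** (pair test with compensation at a point `c` where `σ` is not integrable).
Proof. `q = p/(p-1)`, so `(q-1) p = q`. For `n ≥ 1` let `E_n = {y ∈ I : 1/n < |y - c| < n}`,
`t_n = min(σ, n)` (real valued), `M_n = ∫_{E_n} t_n |y-c|^q` (finite); `M_n` increases to
`M = ∫_I σ |y-c|^q` (monotone convergence; the point `c` is a null set). Fix `n` with `M_n > 0` and put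
`g(y) = sgn(y-c) |y-c|^{q-1} t_n(y) 1_{E_n}(y)` (bounded, bounded support), `m = ∫ g`;
`∫ |g|^p u = ∫_{E_n} |y-c|^q t_n (t_n^{p-1} u) ≤ M_n`. Fix `0 < ρ < 1` and `J' = J ∩ {ρ < |x-c| < 1/ρ}`
(open), let `0 < r < min(ρ/2, 1/n)` and let `k` be a test function from TF for `E = Ioo (c-r) (c+r)` with
`∫ k^p u ≤ η` (`η > 0` arbitrary, since `σ(E) = ∞` and `s^{1-p} → 0` as `s → ∞`).
`f = g - m k` is integrable with mean `0`, vanishes on `J'`, and `|f|^p = |g|^p + |m|^p k^p`.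
For `x ∈ J'`:
`∫ f y/(x-y) = ∫ g(y) [1/(x-y) - 1/(x-c)] dy - m ∫ k(z) [1/(x-z) - 1/(x-c)] dz`
(because `∫ f = 0`). The first term is `(1/(x-c)) ∫ g(y)(y-c)/(x-y) dy`, of absolute value
`≥ M_n/(D |x-c|)` (as `g(y)(y-c) = |y-c|^q t_n ≥ 0` and `x - y` has constant sign and `|x-y| ≤ D`).
The second is `≤ |m| r/((ρ-r) ρ) ≤ 2 |m| r/ρ²`, which for small `r` is `≤ M_n ρ/(2D) ≤ M_n/(2D |x-c|)`.
So `|∫ f y/(x-y)| ≥ M_n/(2D|x-c|)` and `Adm` gives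
`(M_n/(2D))^p ∫_{J'} u |x-c|^{-p} ≤ C (M_n + |m|^p η)`. Let `η → 0`, then `ρ → 0`, then `n → ∞`.
(If `M = 0` the right side is `∞`.) -/
def S_WT : Prop := ∀ (p : ℝ) (u : ℝ → ℝ≥0∞) (C : ℝ≥0), Std p u C →
  ∀ c : ℝ, (∀ r : ℝ, 0 < r → ms (sg p u) (Ioo (c - r) (c + r)) = ∞) →
  ∀ (I J : Set ℝ), MeasurableSet I → IsOpen J → ∀ D : ℝ, 0 < D →
  ((∀ x ∈ J, ∀ y ∈ I, 0 < x - y ∧ x - y ≤ D) ∨ (∀ x ∈ J, ∀ y ∈ I, 0 < y - x ∧ y - x ≤ D)) →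
  ∫⁻ x in J, u x * ENNReal.ofReal |x - c| ^ (-p) ≤ C * ENNReal.ofReal (2 * D) ^ p *
    (∫⁻ y in I, sg p u y * ENNReal.ofReal |y - c| ^ (p / (p - 1))) ^ (1 - p)

/-- **C2**: `σ` not locally integrable at `c`. -/
def S_C2 : Prop := ∀ (p : ℝ) (u : ℝ → ℝ≥0∞) (C : ℝ≥0), Std p u C →
  ∀ c : ℝ, (∀ r : ℝ, 0 < r → ms (sg p u) (Ioo (c - r) (c + r)) = ∞) →
  ApE p (fun x => u x * ENNReal.ofReal |x - c| ^ (-p))

/-- **E1** (`σ` integrable; test functions near infinity).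
Proof. Let `K₀ = [-R₀, R₀]`, `T = {R < |y|}`. For `0 < s < σ(T)` and `0 < t < σ(K₀)` take test functions
`g` (for `T`) and `k` (for `K₀`) from TF, `f = g - k`, `J = {4R₀ < |x| < R/8}` (open, `f = 0` on it).
For `x ∈ J`: `|∫ g y/(x-y)| ≤ 1/(R - R/8) = 8/(7R) ≤ 1/(7|x|)` (as `|x - y| ≥ R - |x|`);
`x - y` has the sign of `x` for `|y| ≤ R₀` and `|x-y| ≤ |x| + R₀ ≤ (5/4)|x|`, so
`|∫ k y/(x-y)| ≥ 4/(5|x|)`. Hence `|∫ f y/(x-y)| ≥ 1/(2|x|)` and by `Adm`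
`2^{-p} ∫_J u |x|^{-p} ≤ C (s^{1-p} + t^{1-p})`. Let `s → σ(T)`, `t → σ(K₀)`; finally
`σ(K₀) ≥ σ(ℝ)/2 ≥ σ(T)/2`, so `σ(K₀)^{1-p} ≤ 2^{p-1} σ(T)^{1-p}`. `A = 2^p C (1 + 2^{p-1})`, which is
positive (so that the case `σ(T) = 0` is trivial). -/
def S_E1 : Prop := ∀ (p : ℝ) (u : ℝ → ℝ≥0∞) (C : ℝ≥0), Std p u C → ∀ R₀ : ℝ, 1 ≤ R₀ →
  ms (sg p u) univ ≠ ∞ → ms (sg p u) univ ≤ 2 * ms (sg p u) (Icc (-R₀) R₀) →
  ∃ A : ℝ≥0, ∀ R : ℝ, 32 * R₀ ≤ R →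
    ∫⁻ x in {x : ℝ | 4 * R₀ < |x| ∧ |x| < R / 8}, u x * ENNReal.ofReal |x| ^ (-p) ≤
      A * ms (sg p u) {y : ℝ | R < |y|} ^ (1 - p)

/-- **E2** (`σ` integrable; test functions between the core and infinity).
Proof. `q = p/(p-1)`, `(q-1)p = q`. `σ < ∞` a.e., let `s = σ.toReal` (`s^{p-1} u = 1` a.e.).
`A_R = {8R₀ < |y| < R}`, `M = ∫_{A_R} s |y|^q` (finite, `≤ R^q σ(ℝ)`; if `M = 0` nothing to prove),
`g(y) = sgn(y) |y|^{q-1} s(y) 1_{A_R}(y)` (integrable, `|g| ≤ R^{q-1} s`), `m = ∫ g`.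
`∫ |g|^p u = ∫_{A_R} |y|^q s (s^{p-1} u) = M`. `|m| ≤ ∫_{A_R} |y|^{q-1} s ≤ M/(8R₀)`, and by Hölder
`|m| ≤ M^{1/p} σ(A_R)^{1/q}`, i.e. `|m|^p ≤ M σ(A_R)^{p-1}`. Let `K₀ = [-R₀, R₀]` and
`k = s 1_{K₀}/σ(K₀)`: `∫ k = 1`, `∫ k^p u = σ(K₀)^{1-p}` (`0 < σ(K₀) < ∞` since `σ > 0` everywhere).
`f = g - m k`, mean zero, vanishes on the open set `J = {2R < |x| < 3R}`. For `x ∈ J`, since `∫ f = 0`,
`∫ f y/(x-y) = ∫ f(y) [1/(x-y) - 1/x] dy = (1/x) ∫ f(y) y/(x-y) dy`. Here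
`∫ g(y) y/(x-y) = ∫_{A_R} |y|^q s/(x-y)` has absolute value `≥ M/(4R)` (`x - y` has the sign of `x`,
`|x-y| ≤ 4R`), and `|m ∫ k(y) y/(x-y)| ≤ |m| R₀/(2R - R₀) ≤ |m| R₀/R ≤ M/(8R)`. So
`|∫ f y/(x-y)| ≥ M/(8R|x|) ≥ M/(24R²)`, and `Adm` gives
`u(J) (M/(24R²))^p ≤ C (M + |m|^p σ(K₀)^{1-p}) ≤ C M (1 + (σ(A_R)/σ(K₀))^{p-1}) ≤ 2 C M`, because
`σ(A_R) ≤ σ(ℝ) - σ(K₀) ≤ σ(K₀)`. Divide by `M`. `A = 2 C 24^p`. -/
def S_E2 : Prop := ∀ (p : ℝ) (u : ℝ → ℝ≥0∞) (C : ℝ≥0), Std p u C → ∀ R₀ : ℝ, 1 ≤ R₀ →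
  ms (sg p u) univ ≠ ∞ → ms (sg p u) univ ≤ 2 * ms (sg p u) (Icc (-R₀) R₀) →
  ∃ A : ℝ≥0, ∀ R : ℝ, 8 * R₀ ≤ R →
    ms u {x : ℝ | 2 * R < |x| ∧ |x| < 3 * R} *
      (∫⁻ y in {y : ℝ | 8 * R₀ < |y| ∧ |y| < R},
        sg p u y * ENNReal.ofReal |y| ^ (p / (p - 1))) ^ (p - 1) ≤
      A * ENNReal.ofReal R ^ (2 * p)

/-- **CEN** (central intervals).
Proof. From E1, E2 and HOLD. Let `w = u (1+|x|)^{-p}`, `σ_w = σ (1+|x|)^q`. By E2 and HOLD for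
`J_R = {2R < |x| < 3R}` (`|J_R| = 2R`, `σ(J_R) ≤ τ := σ(|y| > 2R)`):
`M_R^{p-1} (2R)^p ≤ M_R^{p-1} u(J_R) τ^{p-1} ≤ A₂ R^{2p} τ^{p-1}`, i.e. `M_R^{p-1} ≤ A₂ R^p τ^{p-1}`, and by
E1 (at `2R`) `W_out := ∫_{4R₀ < |x| < R/4} u |x|^{-p} ≤ A₁ τ^{1-p}`. The cores add
constants, which are absorbed because `τ ≤ σ(ℝ)` and `M_R ≥ M_{R₁} > 0`. -/
def S_CEN : Prop := ∀ (p : ℝ) (u : ℝ → ℝ≥0∞) (C : ℝ≥0), Std p u C → ∀ R₀ : ℝ, 1 ≤ R₀ →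
  ms (sg p u) univ ≠ ∞ → ms (sg p u) univ ≤ 2 * ms (sg p u) (Icc (-R₀) R₀) →
  ∃ (A : ℝ≥0) (R₁ : ℝ), ∀ R : ℝ, R₁ ≤ R →
    ms (fun x => u x * ENNReal.ofReal (1 + |x|) ^ (-p)) (Ioo (-R) R) *
      ms (sg p (fun x => u x * ENNReal.ofReal (1 + |x|) ^ (-p))) (Ioo (-R) R) ^ (p - 1) ≤
      A * ENNReal.ofReal R ^ p

/-- **C3**: `σ` integrable. -/
def S_C3 : Prop := ∀ (p : ℝ) (u : ℝ → ℝ≥0∞) (C : ℝ≥0), Std p u C → ms (sg p u) univ ≠ ∞ →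
  ApE p (fun x => u x * ENNReal.ofReal (1 + |x|) ^ (-p))

/-- **NEC**: the necessity part. -/
def S_NEC : Prop := ∀ (𝕜 : Type) [RCLike 𝕜] (p : ℝ), 1 < p → ∀ U : ℝ → ℝ, IsWeight U →
  Admissible 𝕜 p U → MemAp p U ∨ MemAp p (fun x => U x / (1 + |x|) ^ p) ∨
    ∃ c : ℝ, MemAp p (fun x => U x / |x - c| ^ p)

end Pool.Agent.Q79.HW
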