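import Pool.Agent.Q79.HW.Defs
import Pool.Agent.TH279.RI.Dom
import Pool.Agent.TH266.RI.J592
import Pool.Agent.H433R3.Ml9
import Pool.Agent.Helper604.UMD.Hil

/-!
# Sufficiency part of the characterization of the admissible weights (MP_945c9c_an): statements
-/

set_option autoImplicit false

open MeasureTheory Filter Topology Set
open scoped ENNReal NNReal Real ContDiff

namespace Pool.Agent.Q79.HW

open Pool.Agent.H433R3.Ml (WData OneSup sg_pos sg_meas WM)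

/-- The kernel `1/(x - y)` on `Fin 1 → ℝ`. -/
noncomputable def K₁ (x y : Fin 1 → ℝ) : ℂ := 1 / ((x 0 - y 0 : ℝ) : ℂ)

/-- The maximal truncation on the line. -/
noncomputable def TSR (f : ℝ → ℂ) (x : ℝ) : ℝ≥0∞ :=
  ⨆ (δ : ℝ) (_ : 0 < δ), ‖∫ y in {y : ℝ | δ < |y - x|}, f y / ((x - y : ℝ) : ℂ)‖ₑ

/-- **KER**: the `L²` Hilbert transform `HL` (multiplier `-i sgn ξ`, library
`Pool.Agent.Helper604.UMD.Hil`) has the kernel `1/(π(x-y))` off the support.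
Proof. `f` is a Schwartz function `F` (`HasCompactSupport.toSchwartzMap`), and by `HL_schwartz`
`HL (F.toLp 2) =ᵐ hilbertT F = 𝓕⁻ (sym · 𝓕 f)`, where `𝓕 f` is integrable. For `δ > 0` let
`m_δ(ξ) = sym ξ · e^{-2πδ|ξ|}` (integrable). For every `x`:
(i) `𝓕⁻(m_δ 𝓕 f)(x) → 𝓕⁻(sym 𝓕 f)(x)` as `δ → 0+` (dominated convergence, dominated by `|𝓕 f|`);
(ii) `𝓕⁻(m_δ 𝓕 f)(x) = ∫ f(y) k_δ(x - y) dy` with `k_δ(t) = ∫ m_δ(ξ) e^{2πitξ} dξ = t/(π(t² + δ²))`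
(Fubini: `m_δ` and `f` are integrable; the two half line integrals are
`∫_0^∞ e^{-2πδξ} e^{2πitξ} dξ = 1/(2π(δ - it))`, so `k_δ(t) = -i [1/(2π(δ-it)) - 1/(2π(δ+it))]`);
(iii) if `x ∉ tsupport f`, then `|x - y| ≥ c > 0` on the support of `f`, so
`∫ f(y) k_δ(x-y) dy → (1/π) ∫ f(y)/(x-y) dy` (dominated by `|f|/(πc)`). -/
def S_KER : Prop := ∀ f : ℝ → ℂ, ContDiff ℝ ∞ f → HasCompactSupport f →
  ∀ hf : MemLp f 2 (volume : Measure ℝ), ∀ᵐ x, x ∉ tsupport f →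
    (Pool.Agent.Helper604.UMD.HL (hf.toLp f) : ℝ → ℂ) x =
      ((1 / π : ℝ) : ℂ) * ∫ y, f y / ((x - y : ℝ) : ℂ)

/-- **CZ**: `1/(x-y)` is the kernel of a Calderon-Zygmund operator on `Fin 1 → ℝ`.
Proof. `T = π • (E⁻¹ ∘ HL ∘ E)` where `E` is composition with the measure preserving equivalence
`MeasurableEquiv.funUnique (Fin 1) ℝ` (`MeasureTheory.volume_preserving_funUnique`;
`Lp.compMeasurePreservingₗᵢ`). One may instead define an operator on functions and use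
`Pool.Agent.H433R3.Sep.exists_clm` (Sep24). `rep` is KER for `f ∘ e` (smooth, compact support). `size`:
`el (x - y) = |x 0 - y 0|` on `Fin 1`. `reg` with `ε = 1`, `C = 4`:
`|1/(x-y) - 1/(z-y)| = |x-z|/(|x-y||z-y|) ≤ 2|x-z|/|x-y|²` if `2|x-z| < |x-y|`. -/
def S_CZ : Prop := ∃ T : Lp ℂ 2 (volume : Measure (Fin 1 → ℝ)) →L[ℂ]
    Lp ℂ 2 (volume : Measure (Fin 1 → ℝ)), Pool.Agent.TH279.RI.IsCZ T K₁

/-- **APTS**: `A_p` bound for maximal truncations of Calderon-Zygmund operators.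
Proof. Combine `Pool.Agent.TH279.RI.dominStar` (pointwise sparse domination of `TS K f` for bounded
`f` of bounded support) with `Pool.Agent.H433R3.Ml.famBound` (`θ = η = 1`, `N' = N`), exactly as in the
strong type part of `Pool.Agent.H433R3.Ml.czoBdd` (Ml10, replace `TT T f` by `TS K f`; lemma `g0_pow`
there; the case `∫ ‖f‖^p = ∞` is trivial), and then pass to general measurable `f` as in
`Pool.Agent.TH279.RI.genTS` (Asm4: truncations `(A k).indicator f`, lemma `TS_approx`, Fatou). The measure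
`WM w` is absolutely continuous. To avoid the union over the cubes `gq t (ix t j 0)` use liminf as in
`genTS`: for every `k` choose a cube containing `closedBall 0 k`. -/
def S_APTS : Prop := ∀ (d : ℕ), 0 < d →
  ∀ (T : Lp ℂ 2 (volume : Measure (Fin d → ℝ)) →L[ℂ] Lp ℂ 2 (volume : Measure (Fin d → ℝ)))
    (K : (Fin d → ℝ) → (Fin d → ℝ) → ℂ), Pool.Agent.H433R3.Sep.IsCZO T K →
  ∀ (p q : ℝ), p.HolderConjugate q → ∃ C : ℝ≥0, ∀ w : (Fin d → ℝ) → ℝ, WData q w →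
    ∀ N : ℝ, 0 ≤ N → OneSup p 1 N w (Pool.Agent.H433R3.Ml.sg q w) →
    OneSup q 1 N (Pool.Agent.H433R3.Ml.sg q w) w →
    ∀ f : (Fin d → ℝ) → ℂ, Measurable f →
      ∫⁻ x, Pool.Agent.TH279.RI.TS K f x ^ p ∂(WM w) ≤
        C * ENNReal.ofReal (N ^ p) * ∫⁻ x, ‖f x‖ₑ ^ p ∂(WM w)

/-- **LINE**: Hunt-Muckenhoupt-Wheeden on the line, for the maximal truncation.
Proof. From CZ (with `Pool.Agent.TH266.RI.IsCZ.isCZO`) and APTS with `d = 1`, `q = p/(p-1)`. Let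
`W ∈ A_p`. From `bdd` and `W` not a.e. zero: `W > 0` a.e. (if `W = 0` on a set of positive measure, take
an interval `I` meeting it and `{W > 0}` in positive measure: `(∫_I W) · ∞ ≤ finite` is impossible) and
`∫_I W^{-1/(p-1)} < ∞`. Put `W' = W` where `W > 0`, `= 1` elsewhere (equal a.e.), and
`w x = W' (x 0)` on `Fin 1 → ℝ`: `WData q w` (`1 - q = -1/(p-1)`), `cube c l = {c 0 ≤ x 0 < c 0 + l}`,
`OneSup p 1 N w (sg q w)`: `AV w · AV (sg q w)^{p-1} ≤ C`, and the dual one is its power `q - 1`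
(`(p-1)(q-1) = 1`); the second factor has exponent `1 - 1 = 0`. Transfer the integrals by the measure
preserving `MeasurableEquiv.funUnique`. `{y | ε < el (x - y)}` corresponds to `{y | δ < |y - x|}`. -/
def S_LINE : Prop := ∀ p : ℝ, 1 < p → ∀ W : ℝ → ℝ, MemAp p W → ∃ C : ℝ≥0,
  ∀ f : ℝ → ℂ, Measurable f →
    ∫⁻ x, TSR f x ^ p * ENNReal.ofReal (W x) ≤ C * ∫⁻ x, ‖f x‖ₑ ^ p * ENNReal.ofReal (W x)

/-- **PW**: pointwise bounds for `hilb`.
Proof. Let `f : ℝ → 𝕜` be measurable, integrable, `∫ f = 0`. Write `f = re + i im` with real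
functions `a = RCLike.re ∘ f`, `b = RCLike.im ∘ f` (mean zero as well) and `F_a y = (a y : ℂ)`.
For `δ > 0` all the truncated integrals converge absolutely. `π ‖trunc f δ x‖ ≤ |∫_{|y-x|>δ} a/(x-y)| +
|∫_{|y-x|>δ} b/(x-y)| ≤ TSR F_a x + TSR F_b x`, hence the first bound (if the limit does not exist,
`hilb f x = 0`). For the second:
`(x-c) ∫_{|y-x|>δ} a y/(x-y) = ∫_{|y-x|>δ} a y + ∫_{|y-x|>δ} (y-c) a y/(x-y)` (as
`(x-c)/(x-y) = 1 + (y-c)/(x-y)`, and `(y - c)/(x - y)` is bounded on `|y-x| > δ`), and the first integral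
on the right tends to `∫ a = 0` as `δ → 0`; the second is `≤ TSR (fun y => ((y-c) a y : ℂ)) x`.
So if `hilb f x` is a limit then `π |x-c| ‖hilb f x‖ ≤ TSR ((y-c)a) x + TSR ((y-c)b) x`. -/
def S_PW : Prop := ∀ (𝕜 : Type) [RCLike 𝕜] (f : ℝ → 𝕜), Measurable f → Integrable f →
  ∫ x, f x = 0 → ∀ x : ℝ,
  (‖hilb f x‖ₑ ≤ TSR (fun y => ((RCLike.re (f y) : ℝ) : ℂ)) x +
    TSR (fun y => ((RCLike.im (f y) : ℝ) : ℂ)) x) ∧
  ∀ c : ℝ, ENNReal.ofReal |x - c| * ‖hilb f x‖ₑ ≤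
    TSR (fun y => (((y - c) * RCLike.re (f y) : ℝ) : ℂ)) x +
    TSR (fun y => (((y - c) * RCLike.im (f y) : ℝ) : ℂ)) x

/-- **SUF**: the sufficiency part.
Proof. From LINE and PW. WLOG `f` measurable (replace by an a.e. equal function; `hilb` does not change,
the truncated integrals do not). (1) `U ∈ A_p`: `‖Hf‖^p ≤ 2^p (TSR F_a^p + TSR F_b^p)`, LINE, and
`|a|, |b| ≤ ‖f‖`. (3) `W = U/|x-c|^p ∈ A_p`: `U = |x-c|^p W` for `x ≠ c`, so
`‖Hf‖^p U = (|x-c| ‖Hf‖)^p W ≤ 2^p (TSR ((y-c)a)^p + TSR ((y-c)b)^p) W`, and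
`∫ |y-c|^p |a|^p W ≤ ∫ ‖f‖^p U`. (2) `W = U/(1+|x|)^p ∈ A_p`: `(1+|x|)^p ≤ 2^p (1 + |x|^p)`, so
`‖Hf‖^p U ≤ 2^p (‖Hf‖^p W + (|x| ‖Hf‖)^p W)`; use (1) for `W` and (3) with `c = 0`; `W ≤ U` and
`|y|^p W ≤ U`. -/
def S_SUF : Prop := ∀ (𝕜 : Type) [RCLike 𝕜] (p : ℝ), 1 < p → ∀ U : ℝ → ℝ, IsWeight U →
  (MemAp p U ∨ MemAp p (fun x => U x / (1 + |x|) ^ p) ∨
    ∃ c : ℝ, MemAp p (fun x => U x / |x - c| ^ p)) → Admissible 𝕜 p U

end Pool.Agent.Q79.HW
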